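import Mathlib

/-!
Recurrences for the Almkvist-Zudilin numbers (helper35).
-/

set_option autoImplicit false

namespace Pool.Agent.W35.AZ

open Finset

/-- `c^(n-j)/(n-j)!`, zero when `j > n` -/
noncomputable def uu (c : ℚ) (n j : ℕ) : ℚ := if j ≤ n then c ^ (n - j) / (n - j).factorial else 0

theorem uu_zero (c : ℚ) {n j : ℕ} (h : n < j) : uu c n j = 0 := by
  unfold uu; rw [if_neg (by omega)]

theorem uu_of_le (c : ℚ) {n j : ℕ} (h : j ≤ n) : uu c n j = c ^ (n - j) / (n - j).factorial := by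
  unfold uu; rw [if_pos h]

/-- lowering the first index -/
theorem uu_succ_left (c : ℚ) (n j : ℕ) : uu c (n + 1) j * ((n : ℚ) + 1 - j) = c * uu c n j := by
  rcases Nat.lt_trichotomy j (n + 1) with h | h | h
  · obtain ⟨d, rfl⟩ : ∃ d, n = j + d := ⟨n - j, by omega⟩
    rw [uu_of_le c (by omega), uu_of_le c (by omega)]
    have e1 : j + d + 1 - j = d + 1 := by omega
    have e2 : j + d - j = d := by omega
    rw [e1, e2, Nat.factorial_succ, pow_succ]
    have : ((d.factorial : ℕ) : ℚ) ≠ 0 := by exact_mod_cast d.factorial_ne_zero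
    push_cast
    field_simp
    ring
  · subst h
    rw [uu_zero c (n := n) (by omega)]
    push_cast; ring
  · rw [uu_zero c (n := n) (by omega), uu_zero c h]; ring

/-- raising the second index -/
theorem uu_succ_right (c : ℚ) (n j : ℕ) : uu c n j * ((n : ℚ) - j) = c * uu c n (j + 1) := by
  rcases Nat.lt_trichotomy j n with h | h | h
  · obtain ⟨d, rfl⟩ : ∃ d, n = j + 1 + d := ⟨n - (j + 1), by omega⟩
    rw [uu_of_le c (by omega), uu_of_le c (by omega)]
    have e1 : j + 1 + d - j = d + 1 := by omega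
    have e2 : j + 1 + d - (j + 1) = d := by omega
    rw [e1, e2, Nat.factorial_succ, pow_succ]
    have : ((d.factorial : ℕ) : ℚ) ≠ 0 := by exact_mod_cast d.factorial_ne_zero
    push_cast
    field_simp
    ring
  · subst h
    rw [uu_zero c (n := j) (j := j + 1) (by omega)]; ring
  · rw [uu_zero c h, uu_zero c (by omega)]; ring

/-- summand of the Almkvist-Zudilin numbers -/
noncomputable def zF (n k : ℕ) : ℚ := uu (-3) n (3 * k) * (n + k).factorial / (k.factorial : ℚ) ^ 4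

noncomputable def zG (n k : ℕ) : ℚ :=
  -36 * (4 * n + 5) * (k : ℚ) ^ 4 * (uu (-3) (n + 2) (3 * k) * (n + k).factorial / (k.factorial : ℚ) ^ 4)

theorem z_tel (n k : ℕ) : ((n : ℚ) + 2) ^ 3 * zF (n + 2) k
    + (2 * n + 3) * (7 * ((n : ℚ) + 1) ^ 2 + 7 * (n + 1) + 3) * zF (n + 1) k
    + 81 * ((n : ℚ) + 1) ^ 3 * zF n k = zG n (k + 1) - zG n k := by
  have h1 := uu_succ_left (-3) (n + 1) (3 * k)
  have h2 := uu_succ_left (-3) n (3 * k)
  have h3 := uu_succ_right (-3) (n + 2) (3 * k)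
  have h4 := uu_succ_right (-3) (n + 2) (3 * k + 1)
  have h5 := uu_succ_right (-3) (n + 2) (3 * k + 2)
  have hk : ((k.factorial : ℕ) : ℚ) ≠ 0 := by exact_mod_cast k.factorial_ne_zero
  have hk1 : (k : ℚ) + 1 ≠ 0 := by positivity
  unfold zF zG
  have e1 : n + 2 + k = (n + k) + 1 + 1 := by ring
  have e2 : n + 1 + k = (n + k) + 1 := by ring
  have e3 : n + (k + 1) = (n + k) + 1 := by ring
  have e4 : 3 * (k + 1) = 3 * k + 2 + 1 := by ring
  rw [e1, e2, e3, e4, Nat.factorial_succ (n + k + 1), Nat.factorial_succ (n + k), Nat.factorial_succ k]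
  have f1 : uu (-3) (n + 1) (3 * k) = uu (-3) (n + 2) (3 * k) * ((n : ℚ) + 2 - 3 * k) / (-3) := by
    have : n + 1 + 1 = n + 2 := rfl
    rw [this] at h1
    push_cast at h1
    linarith
  have f2 : uu (-3) n (3 * k) = uu (-3) (n + 1) (3 * k) * ((n : ℚ) + 1 - 3 * k) / (-3) := by
    push_cast at h2
    linarith
  have f3 : uu (-3) (n + 2) (3 * k + 1) = uu (-3) (n + 2) (3 * k) * ((n : ℚ) + 2 - 3 * k) / (-3) := by
    push_cast at h3
    linarith
  have f4 : uu (-3) (n + 2) (3 * k + 2) = uu (-3) (n + 2) (3 * k + 1) * ((n : ℚ) + 1 - 3 * k) / (-3) := by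
    push_cast at h4
    linarith
  have f5 : uu (-3) (n + 2) (3 * k + 2 + 1) = uu (-3) (n + 2) (3 * k + 2) * ((n : ℚ) - 3 * k) / (-3) := by
    push_cast at h5
    linarith
  rw [f5, f4, f3, f2, f1]
  push_cast
  field_simp
  ring

/-- the Almkvist-Zudilin numbers as rationals -/
noncomputable def zz (n : ℕ) : ℚ := ∑ k ∈ range (n + 1), zF n k

theorem zz_eq {n K : ℕ} (h : n < 3 * K) : zz n = ∑ k ∈ range K, zF n k := by
  have key : ∀ K' : ℕ, n < 3 * K' → ∀ K'' : ℕ, K' ≤ K'' → ∑ k ∈ range K'', zF n k = ∑ k ∈ range K', zF n k := by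
    intro K' hK' K'' hle
    symm
    apply sum_subset (range_subset_range.2 hle)
    intro k _ hk
    rw [mem_range, not_lt] at hk
    unfold zF
    rw [uu_zero _ (by omega)]; simp
  unfold zz
  rcases le_total K (n + 1) with h1 | h1
  · exact key K h _ h1
  · exact (key (n + 1) (by omega) _ h1).symm

theorem zz_rec (n : ℕ) : ((n : ℚ) + 2) ^ 3 * zz (n + 2)
    + (2 * n + 3) * (7 * ((n : ℚ) + 1) ^ 2 + 7 * (n + 1) + 3) * zz (n + 1)
    + 81 * ((n : ℚ) + 1) ^ 3 * zz n = 0 := by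
  rw [zz_eq (n := n + 2) (K := n + 3) (by omega), zz_eq (n := n + 1) (K := n + 3) (by omega),
    zz_eq (n := n) (K := n + 3) (by omega), mul_sum, mul_sum, mul_sum, ← sum_add_distrib,
    ← sum_add_distrib, sum_congr rfl (fun k _ => z_tel n k), sum_range_sub]
  unfold zG
  rw [uu_zero (-3) (n := n + 2) (j := 3 * (n + 3)) (by omega)]
  simp

/-- summand of the sequence `g` -/
def gF (m k : ℕ) : ℚ := (m.choose k : ℚ) ^ 2 * k.centralBinom

noncomputable def gG (m k : ℕ) : ℚ :=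
  (k : ℚ) ^ 3 * (3 * k - 4 * (m + 2)) / ((m : ℚ) + 2) ^ 2 * (((m + 2).choose k : ℚ) ^ 2 * k.centralBinom)

theorem choose_left (m k : ℕ) : ((m.choose k : ℕ) : ℚ) * ((m : ℚ) + 1)
    = ((m + 1).choose k : ℕ) * ((m : ℚ) + 1 - k) := by
  rcases Nat.lt_or_ge (m + 1) k with h | h
  · rw [Nat.choose_eq_zero_of_lt h, Nat.choose_eq_zero_of_lt (by omega)]; simp
  · have := Nat.choose_mul_succ_eq m k
    have h2 : (((m + 1 - k : ℕ)) : ℚ) = (m : ℚ) + 1 - k := by
      rw [Nat.cast_sub h]; push_cast; ring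
    rw [← h2]
    exact_mod_cast this

theorem choose_right (m k : ℕ) : ((m.choose (k + 1) : ℕ) : ℚ) * ((k : ℚ) + 1)
    = (m.choose k : ℕ) * ((m : ℚ) - k) := by
  rcases Nat.lt_or_ge m k with h | h
  · rw [Nat.choose_eq_zero_of_lt h, Nat.choose_eq_zero_of_lt (by omega)]; simp
  · have := Nat.choose_succ_right_eq m k
    have h2 : (((m - k : ℕ)) : ℚ) = (m : ℚ) - k := by
      rw [Nat.cast_sub h]
    rw [← h2]
    exact_mod_cast this

theorem g_tel (m k : ℕ) : ((m : ℚ) + 2) ^ 2 * gF (m + 2) k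
    - (10 * ((m : ℚ) + 1) ^ 2 + 10 * (m + 1) + 3) * gF (m + 1) k
    + 9 * ((m : ℚ) + 1) ^ 2 * gF m k = gG m (k + 1) - gG m k := by
  have h1 := choose_left (m + 1) k
  have h2 := choose_left m k
  have h3 := choose_right (m + 2) k
  have h4 : ((k : ℚ) + 1) * ((k + 1).centralBinom : ℕ) = 2 * (2 * k + 1) * (k.centralBinom : ℕ) := by
    exact_mod_cast Nat.succ_mul_centralBinom_succ k
  have hk1 : (k : ℚ) + 1 ≠ 0 := by positivity
  have hm1 : (m : ℚ) + 1 ≠ 0 := by positivity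
  have hm2 : (m : ℚ) + 2 ≠ 0 := by positivity
  unfold gF gG
  have e0 : m + 1 + 1 = m + 2 := rfl
  rw [e0] at h1
  push_cast at h1 h3
  have f1 : (((m + 1).choose k : ℕ) : ℚ) = ((m + 2).choose k : ℕ) * ((m : ℚ) + 2 - k) / (m + 2) := by
    rw [eq_div_iff hm2]; linarith
  have f2 : ((m.choose k : ℕ) : ℚ) = ((m + 1).choose k : ℕ) * ((m : ℚ) + 1 - k) / (m + 1) := by
    rw [eq_div_iff hm1]; linarith
  have f3 : (((m + 2).choose (k + 1) : ℕ) : ℚ) = ((m + 2).choose k : ℕ) * ((m : ℚ) + 2 - k) / (k + 1) := by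
    rw [eq_div_iff hk1]; linarith
  have f4 : (((k + 1).centralBinom : ℕ) : ℚ) = 2 * (2 * k + 1) * (k.centralBinom : ℕ) / (k + 1) := by
    rw [eq_div_iff hk1]; linarith
  rw [f4, f3, f2, f1]
  push_cast
  field_simp
  ring

def gg (m : ℕ) : ℚ := ∑ k ∈ range (m + 1), gF m k

theorem gg_eq {m K : ℕ} (h : m < K) : gg m = ∑ k ∈ range K, gF m k := by
  unfold gg
  apply sum_subset (range_subset_range.2 (by omega))
  intro k _ hk
  rw [mem_range, not_lt] at hk
  unfold gF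
  rw [Nat.choose_eq_zero_of_lt (by omega)]; simp

theorem gg_rec (m : ℕ) : ((m : ℚ) + 2) ^ 2 * gg (m + 2)
    - (10 * ((m : ℚ) + 1) ^ 2 + 10 * (m + 1) + 3) * gg (m + 1)
    + 9 * ((m : ℚ) + 1) ^ 2 * gg m = 0 := by
  rw [gg_eq (m := m + 2) (K := m + 3) (by omega), gg_eq (m := m + 1) (K := m + 3) (by omega),
    gg_eq (m := m) (K := m + 3) (by omega), mul_sum, mul_sum, mul_sum, ← sum_sub_distrib,
    ← sum_add_distrib, sum_congr rfl (fun k _ => g_tel m k), sum_range_sub]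
  unfold gG
  rw [Nat.choose_eq_zero_of_lt (n := m + 2) (k := m + 3) (by omega)]
  simp

/-- summand of the transform -/
noncomputable def wB (n j : ℕ) : ℚ := uu (-9) n j * (n + j).factorial / (j.factorial : ℚ) ^ 2

noncomputable def wγ (n j : ℕ) : ℚ :=
  -2 * (2 * n + 3) * (j : ℚ) ^ 2 * (uu (-9) (n + 2) j * (n + j).factorial / (j.factorial : ℚ) ^ 2)

noncomputable def wU (n j : ℕ) : ℚ :=
  (j : ℚ) ^ 2 * wγ n j * gg j - 9 * (j : ℚ) ^ 2 * wγ n (j + 1) * gg (j - 1)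

theorem w_A (n j : ℕ) : ((n : ℚ) + 2) ^ 3 * wB (n + 2) j
    + (2 * n + 3) * (7 * ((n : ℚ) + 1) ^ 2 + 7 * (n + 1) + 3) * wB (n + 1) j
    + 81 * ((n : ℚ) + 1) ^ 3 * wB n j =
    (10 * (j : ℚ) ^ 2 + 10 * j + 3) * wγ n (j + 1) - 9 * ((j : ℚ) + 1) ^ 2 * wγ n (j + 2)
      - (j : ℚ) ^ 2 * wγ n j := by
  have h1 := uu_succ_left (-9) (n + 1) j
  have h2 := uu_succ_left (-9) n j
  have h3 := uu_succ_right (-9) (n + 2) j
  have h4 := uu_succ_right (-9) (n + 2) (j + 1)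
  have hk : ((j.factorial : ℕ) : ℚ) ≠ 0 := by exact_mod_cast j.factorial_ne_zero
  have hk1 : (j : ℚ) + 1 ≠ 0 := by positivity
  have hk2 : (j : ℚ) + 2 ≠ 0 := by positivity
  unfold wB wγ
  have e1 : n + 2 + j = (n + j) + 1 + 1 := by ring
  have e2 : n + 1 + j = (n + j) + 1 := by ring
  have e3 : n + (j + 1) = (n + j) + 1 := by ring
  have e4 : n + (j + 2) = (n + j) + 1 + 1 := by ring
  have e5 : j + 2 = j + 1 + 1 := rfl
  rw [e1, e2, e3, e4, e5, Nat.factorial_succ (n + j + 1), Nat.factorial_succ (n + j),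
    Nat.factorial_succ (j + 1), Nat.factorial_succ j]
  have f1 : uu (-9) (n + 1) j = uu (-9) (n + 2) j * ((n : ℚ) + 2 - j) / (-9) := by
    have : n + 1 + 1 = n + 2 := rfl
    rw [this] at h1
    push_cast at h1
    linarith
  have f2 : uu (-9) n j = uu (-9) (n + 1) j * ((n : ℚ) + 1 - j) / (-9) := by
    push_cast at h2
    linarith
  have f3 : uu (-9) (n + 2) (j + 1) = uu (-9) (n + 2) j * ((n : ℚ) + 2 - j) / (-9) := by
    push_cast at h3
    linarith
  have f4 : uu (-9) (n + 2) (j + 1 + 1) = uu (-9) (n + 2) (j + 1) * ((n : ℚ) + 1 - j) / (-9) := by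
    push_cast at h4
    linarith
  rw [f4, f3, f2, f1]
  push_cast
  field_simp
  ring

theorem w_tel (n j : ℕ) : (((n : ℚ) + 2) ^ 3 * wB (n + 2) j
    + (2 * n + 3) * (7 * ((n : ℚ) + 1) ^ 2 + 7 * (n + 1) + 3) * wB (n + 1) j
    + 81 * ((n : ℚ) + 1) ^ 3 * wB n j) * gg j = wU n (j + 1) - wU n j := by
  rw [w_A]
  unfold wU
  rcases j with _ | j
  · have h0 : gg 0 = 1 := by simp [gg, gF]
    have h1 : gg 1 = 3 := by norm_num [gg, gF, sum_range_succ, Nat.centralBinom, Nat.choose]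
    have e1 : (0 : ℕ) + 1 = 1 := rfl
    have e2 : (1 : ℕ) + 1 = 2 := rfl
    have e3 : (1 : ℕ) - 1 = 0 := rfl
    simp only [e1, e2, e3, h0, h1, Nat.cast_zero, Nat.cast_one]
    ring
  · have h := gg_rec j
    have h' : ((j : ℚ) + 2) ^ 2 * gg (j + 2) = (10 * ((j : ℚ) + 1) ^ 2 + 10 * (j + 1) + 3) * gg (j + 1)
      - 9 * ((j : ℚ) + 1) ^ 2 * gg j := by linarith
    have e1 : j + 1 + 1 - 1 = j + 1 := rfl
    have e2 : j + 1 - 1 = j := rfl
    have e3 : j + 1 + 1 = j + 2 := rfl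
    have e4 : j + 1 + 2 = j + 3 := rfl
    have e5 : j + 2 + 1 = j + 3 := rfl
    simp only [e1, e2, e3, e4, e5]
    push_cast
    linear_combination (-wγ n (j + 2)) * h'

/-- the transform of `g` -/
noncomputable def ww (n : ℕ) : ℚ := ∑ j ∈ range (n + 1), wB n j * gg j

theorem ww_eq {n K : ℕ} (h : n < K) : ww n = ∑ j ∈ range K, wB n j * gg j := by
  unfold ww
  apply sum_subset (range_subset_range.2 (by omega))
  intro k _ hk
  rw [mem_range, not_lt] at hk
  unfold wB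
  rw [uu_zero _ (by omega)]; simp

theorem ww_rec (n : ℕ) : ((n : ℚ) + 2) ^ 3 * ww (n + 2)
    + (2 * n + 3) * (7 * ((n : ℚ) + 1) ^ 2 + 7 * (n + 1) + 3) * ww (n + 1)
    + 81 * ((n : ℚ) + 1) ^ 3 * ww n = 0 := by
  rw [ww_eq (n := n + 2) (K := n + 3) (by omega), ww_eq (n := n + 1) (K := n + 3) (by omega),
    ww_eq (n := n) (K := n + 3) (by omega), mul_sum, mul_sum, mul_sum, ← sum_add_distrib,
    ← sum_add_distrib]
  rw [sum_congr rfl (g := fun j => wU n (j + 1) - wU n j) (fun j _ => by rw [← w_tel]; ring),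
    sum_range_sub]
  unfold wU wγ
  rw [uu_zero (-9) (n := n + 2) (j := n + 3) (by omega),
    uu_zero (-9) (n := n + 2) (j := n + 3 + 1) (by omega)]
  simp

theorem zz_eq_ww : ∀ n, zz n = ww n
  | 0 => by simp [zz, ww, zF, wB, uu, gg, gF]
  | 1 => by
      norm_num [zz, ww, zF, wB, uu, gg, gF, sum_range_succ, Nat.centralBinom, Nat.choose, Nat.factorial]
  | (n + 2) => by
      have h1 := zz_rec n
      have h2 := ww_rec n
      rw [zz_eq_ww n, zz_eq_ww (n + 1)] at h1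
      have h3 : ((n : ℚ) + 2) ^ 3 ≠ 0 := by positivity
      have h4 : ((n : ℚ) + 2) ^ 3 * zz (n + 2) = ((n : ℚ) + 2) ^ 3 * ww (n + 2) := by linarith
      exact mul_left_cancel₀ h3 h4

end Pool.Agent.W35.AZ
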