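import Pool.Agent.W35.AZ.Expand
import Pool.Agent.W35.AZ.Rec

open Finset

namespace Pool.Agent.W35.AZ

/-- coefficient function -/
noncomputable def Gf (m : Fin 4 →₀ ℕ) : ℤ := MvPolynomial.coeff m (∏ x, LL x ^ m x)

/-- generating series -/
noncomputable def GG : MvPowerSeries (Fin 4) ℤ := fun m => Gf m

/-- exponents -/
def ve : Fin 7 → Fin 4 → ℕ :=
  ![![1, 1, 1, 1], ![1, 1, 0, 0], ![0, 0, 1, 1], ![1, 0, 1, 0], ![0, 1, 0, 1], ![1, 0, 0, 1],
    ![0, 1, 1, 0]]

/-- coefficients -/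
def dc : Fin 7 → ℤ := ![-9, -1, -1, -1, -1, -1, -1]

/-- the small part of the denominator -/
noncomputable def NN : MvPowerSeries (Fin 4) ℤ := ∑ t, MvPowerSeries.monomial (ex (ve t)) (dc t)

/-- support indicator -/
def eps (m : Fin 4 →₀ ℕ) (x : Fin 4) : ℤ := if m x = 0 then 0 else 1

/-- substitution -/
noncomputable def phi (e : Fin 4 → ℤ) : MvPolynomial (Fin 4) ℤ →ₐ[ℤ] MvPolynomial (Fin 4) ℤ :=
  MvPolynomial.aeval (fun x => MvPolynomial.C (e x) * MvPolynomial.X x)

theorem ex_coe (s : Fin 4 →₀ ℕ) : ex (⇑s) = s := by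
  unfold ex
  exact Finsupp.equivFunOnFinite_symm_coe s

theorem coe_ex (v : Fin 4 → ℕ) : ⇑(ex v) = v := by
  unfold ex
  exact Finsupp.coe_equivFunOnFinite_symm v

theorem phi_monomial (e : Fin 4 → ℤ) (s : Fin 4 →₀ ℕ) (a : ℤ) :
    phi e (MvPolynomial.monomial s a) = MvPolynomial.monomial s (a * ∏ x, e x ^ s x) := by
  unfold phi
  rw [MvPolynomial.aeval_monomial, Finsupp.prod_fintype _ _ (fun i => pow_zero _)]
  simp only [mul_pow, prod_mul_distrib]
  rw [prod_X_pow, ex_coe]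
  have e1 : ∏ x, (MvPolynomial.C (e x) : MvPolynomial (Fin 4) ℤ) ^ s x
      = MvPolynomial.C (∏ x, e x ^ s x) := by
    rw [map_prod]
    simp only [map_pow]
  rw [e1, MvPolynomial.algebraMap_eq, ← mul_assoc, ← MvPolynomial.C_mul,
    MvPolynomial.C_mul_monomial, mul_one]

theorem eps_pow (m : Fin 4 →₀ ℕ) (x : Fin 4) : eps m x ^ m x = 1 := by
  unfold eps
  split_ifs with h
  · rw [h, pow_zero]
  · rw [one_pow]

theorem coeff_phi (m : Fin 4 →₀ ℕ) (f : MvPolynomial (Fin 4) ℤ) :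
    MvPolynomial.coeff m (phi (eps m) f) = MvPolynomial.coeff m f := by
  induction f using MvPolynomial.induction_on' with
  | monomial s a =>
    rw [phi_monomial, MvPolynomial.coeff_monomial, MvPolynomial.coeff_monomial]
    split_ifs with h
    · subst h
      simp only [eps_pow, prod_const_one, mul_one]
    · rfl
  | add p q hp hq => rw [map_add, MvPolynomial.coeff_add, MvPolynomial.coeff_add, hp, hq]

theorem term_eq (m : Fin 4 →₀ ℕ) (T : Fin 4 → ℕ) (hT : ∀ x, T x ≤ 1) :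
    (if ex T ≤ m then Gf (m - ex T) else 0) = MvPolynomial.coeff m
      ((∏ x, (MvPolynomial.C (eps m x) * MvPolynomial.X x) ^ T x)
        * ∏ x, (phi (eps m) (LL x)) ^ (m x - T x)) := by
  split_ifs with h
  · have e1 : MvPolynomial.coeff m ((∏ x, (MvPolynomial.C (eps m x) * MvPolynomial.X x) ^ T x)
        * ∏ x, (phi (eps m) (LL x)) ^ (m x - T x))
        = MvPolynomial.coeff m (phi (eps m) ((∏ x, (MvPolynomial.X x : MvPolynomial (Fin 4) ℤ) ^ T x)
          * ∏ x, (LL x) ^ (m x - T x))) := by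
      rw [map_mul, map_prod, map_prod]
      simp only [map_pow]
      congr 2
      apply prod_congr rfl
      intro x _
      unfold phi
      rw [MvPolynomial.aeval_X]
    rw [e1, coeff_phi, prod_X_pow]
    have e2 : m = ex T + (m - ex T) := (add_tsub_cancel_of_le h).symm
    have e3 : ∀ F : MvPolynomial (Fin 4) ℤ, MvPolynomial.coeff m F
        = MvPolynomial.coeff (ex T + (m - ex T)) F := fun F => by rw [← e2]
    rw [e3, MvPolynomial.coeff_monomial_mul, one_mul]
    rfl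
  · have h2 : ∃ x, m x < T x := by
      by_contra h3
      push Not at h3
      apply h
      intro x
      rw [coe_ex]
      exact h3 x
    obtain ⟨x, hx⟩ := h2
    have h4 := hT x
    have h5 : T x = 1 := by omega
    have h6 : m x = 0 := by omega
    have h7 : ∏ x, (MvPolynomial.C (eps m x) * MvPolynomial.X x : MvPolynomial (Fin 4) ℤ) ^ T x = 0 := by
      apply prod_eq_zero (mem_univ x)
      simp [eps, h5, h6]
    rw [h7, zero_mul, MvPolynomial.coeff_zero]

theorem bracket_id {A : Type*} [CommRing A] (e0 e1 e2 e3 y0 y1 y2 y3 : A) (h0 : e0 = 0 ∨ e0 = 1)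
    (h1 : e1 = 0 ∨ e1 = 1) (h2 : e2 = 0 ∨ e2 = 1) (h3 : e3 = 0 ∨ e3 = 1) (N0 N1 N2 N3 : A)
    (hN0 : N0 = e0 * (e1 * y1 + e2 * y2 + e3 * y3) + (1 - e0))
    (hN1 : N1 = e1 * (-(e0 * y0) + e2 * y2 - e3 * y3) + (1 - e1))
    (hN2 : N2 = e2 * (-(e0 * y0) - e1 * y1 + e3 * y3) + (1 - e2))
    (hN3 : N3 = e3 * (-(e0 * y0) + e1 * y1 - e2 * y2) + (1 - e3)) :
    N0 * N1 * N2 * N3 + 9 * ((e0 * y0) * (e1 * y1) * (e2 * y2) * (e3 * y3))
      + (e0 * y0) * (e1 * y1) * (N2 * N3) + (e2 * y2) * (e3 * y3) * (N0 * N1)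
      + (e0 * y0) * (e2 * y2) * (N1 * N3) + (e1 * y1) * (e3 * y3) * (N0 * N2)
      + (e0 * y0) * (e3 * y3) * (N1 * N2) + (e1 * y1) * (e2 * y2) * (N0 * N3)
      = (1 - e0) * (1 - e1) * (1 - e2) * (1 - e3) := by
  subst hN0 hN1 hN2 hN3
  rcases h0 with rfl | rfl <;> rcases h1 with rfl | rfl <;> rcases h2 with rfl | rfl <;>
    rcases h3 with rfl | rfl <;> ring

theorem ve_le : ∀ t x, ve t x ≤ 1 := by decide

theorem phi_LL (e : Fin 4 → ℤ) (x : Fin 4) :
    phi e (LL x) = ∑ y, MvPolynomial.C (cc x y) * (MvPolynomial.C (e y) * MvPolynomial.X y) := by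
  unfold LL
  rw [map_sum]
  apply sum_congr rfl
  intro y _
  rw [map_mul]
  congr 1
  · unfold phi
    rw [MvPolynomial.aeval_C]
    rfl
  · unfold phi
    rw [MvPolynomial.aeval_X]

theorem GG_mul : GG * (1 - NN) = 1 := by
  classical
  ext m
  have h0 : MvPowerSeries.coeff m GG = Gf m := rfl
  have hsub : ∀ T : Fin 4 → ℕ, MvPowerSeries.coeff (m - ex T) GG = Gf (m - ex T) := fun _ => rfl
  rw [mul_sub, mul_one, map_sub, h0, NN, mul_sum, map_sum]
  simp only [MvPowerSeries.coeff_mul_monomial, hsub]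
  have hterm : ∀ t : Fin 7, (if ex (ve t) ≤ m then Gf (m - ex (ve t)) * dc t else 0)
      = MvPolynomial.coeff m (MvPolynomial.C (dc t)
        * ((∏ x, (MvPolynomial.C (eps m x) * MvPolynomial.X x) ^ ve t x)
        * ∏ x, (phi (eps m) (LL x)) ^ (m x - ve t x))) := by
    intro t
    rw [MvPolynomial.coeff_C_mul, ← term_eq m (ve t) (ve_le t)]
    split_ifs
    · ring
    · ring
  simp only [hterm]
  have hm0 : Gf m = MvPolynomial.coeff m (∏ x, (phi (eps m) (LL x)) ^ (m x)) := by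
    have := term_eq m (fun _ => 0) (fun _ => Nat.zero_le _)
    have e : ex (fun _ : Fin 4 => 0) = 0 := by
      ext x; simp [ex]
    rw [e] at this
    simpa using this
  rw [hm0, ← MvPolynomial.coeff_sum, ← MvPolynomial.coeff_sub]
  -- rewrite the powers
  set P : Fin 4 → MvPolynomial (Fin 4) ℤ := fun x => phi (eps m) (LL x) with hP
  set M : Fin 4 → MvPolynomial (Fin 4) ℤ := fun x => P x ^ (m x - 1) with hM
  set N : Fin 4 → MvPolynomial (Fin 4) ℤ := fun x => if m x = 0 then 1 else P x with hN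
  have p0 : ∀ x, P x ^ (m x) = M x * N x := by
    intro x
    simp only [hM, hN]
    split_ifs with h
    · simp [h]
    · rw [← pow_succ]; congr 1; omega
  have p0' : ∀ x, P x ^ (m x - 0) = M x * N x := p0
  have p1 : ∀ x, P x ^ (m x - 1) = M x := fun x => rfl
  have q : ∀ x, N x = MvPolynomial.C (eps m x) * P x + (1 - MvPolynomial.C (eps m x)) := by
    intro x
    simp only [hN, eps]
    split_ifs with h
    · simp
    · simp
  have he : ∀ x, (MvPolynomial.C (eps m x) : MvPolynomial (Fin 4) ℤ) = 0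
      ∨ (MvPolynomial.C (eps m x) : MvPolynomial (Fin 4) ℤ) = 1 := by
    intro x
    unfold eps
    split_ifs
    · left; simp
    · right; simp
  have br := bracket_id (MvPolynomial.C (eps m 0)) (MvPolynomial.C (eps m 1)) (MvPolynomial.C (eps m 2))
    (MvPolynomial.C (eps m 3)) (MvPolynomial.X 0 : MvPolynomial (Fin 4) ℤ) (MvPolynomial.X 1) (MvPolynomial.X 2)
    (MvPolynomial.X 3) (he 0) (he 1) (he 2) (he 3) (N 0) (N 1) (N 2) (N 3)
    (by
      rw [q 0]; simp only [hP]; rw [phi_LL, Fin.sum_univ_four]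
      simp only [cc, Matrix.cons_val_zero, Matrix.cons_val_one, Matrix.cons_val, map_zero, map_one]
      ring)
    (by
      rw [q 1]; simp only [hP]; rw [phi_LL, Fin.sum_univ_four]
      simp only [cc, Matrix.cons_val_zero, Matrix.cons_val_one, Matrix.cons_val, map_zero, map_one, map_neg]
      ring)
    (by
      rw [q 2]; simp only [hP]; rw [phi_LL, Fin.sum_univ_four]
      simp only [cc, Matrix.cons_val_zero, Matrix.cons_val_one, Matrix.cons_val, map_zero, map_one, map_neg]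
      ring)
    (by
      rw [q 3]; simp only [hP]; rw [phi_LL, Fin.sum_univ_four]
      simp only [cc, Matrix.cons_val_zero, Matrix.cons_val_one, Matrix.cons_val, map_zero, map_one, map_neg]
      ring)
  have key : ∏ x, P x ^ (m x) - ∑ t, MvPolynomial.C (dc t)
        * ((∏ x, (MvPolynomial.C (eps m x) * MvPolynomial.X x) ^ ve t x)
        * ∏ x, P x ^ (m x - ve t x))
      = (M 0 * M 1 * M 2 * M 3) * ((1 - MvPolynomial.C (eps m 0)) * (1 - MvPolynomial.C (eps m 1))
        * (1 - MvPolynomial.C (eps m 2)) * (1 - MvPolynomial.C (eps m 3))) := by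
    rw [← br, Fin.prod_univ_four, Fin.sum_univ_seven]
    simp only [Fin.prod_univ_four, ve, dc, Matrix.cons_val_zero, Matrix.cons_val_one,
      Matrix.cons_val, p0, p0', p1, pow_one, pow_zero]
    have c9 : (MvPolynomial.C (-9) : MvPolynomial (Fin 4) ℤ) = -9 := by
      rw [MvPolynomial.C_neg]
      congr 1
    have c1 : (MvPolynomial.C (-1) : MvPolynomial (Fin 4) ℤ) = -1 := by
      rw [MvPolynomial.C_neg, MvPolynomial.C_1]
    rw [c9, c1]
    ring
  rw [key, MvPowerSeries.coeff_one]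
  by_cases hm : m = 0
  · subst hm
    simp [eps, M]
  · rw [if_neg hm]
    have hx : ∃ x, m x ≠ 0 := by
      by_contra h
      push Not at h
      exact hm (Finsupp.ext h)
    obtain ⟨x, hx⟩ := hx
    have h1 : (1 - MvPolynomial.C (eps m 0)) * (1 - MvPolynomial.C (eps m 1))
        * (1 - MvPolynomial.C (eps m 2)) * (1 - MvPolynomial.C (eps m 3))
        = ∏ x, (1 - (MvPolynomial.C (eps m x) : MvPolynomial (Fin 4) ℤ)) := by
      rw [Fin.prod_univ_four]
    have h2 : ∏ x, (1 - (MvPolynomial.C (eps m x) : MvPolynomial (Fin 4) ℤ)) = 0 := by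
      apply prod_eq_zero (mem_univ x)
      simp [eps, hx]
    rw [h1, h2, mul_zero, MvPolynomial.coeff_zero]

theorem constCoeff_NN : MvPowerSeries.constantCoeff NN = 0 := by
  classical
  unfold NN
  rw [map_sum]
  apply sum_eq_zero
  intro t _
  rw [← MvPowerSeries.coeff_zero_eq_constantCoeff_apply, MvPowerSeries.coeff_monomial, if_neg]
  intro h
  have h2 : ∀ x, ve t x = 0 := by
    intro x
    have := DFunLike.congr_fun h x
    rw [coe_ex] at this
    simpa using this.symm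
  have h3 : ∀ t : Fin 7, ¬ ∀ x, ve t x = 0 := by decide
  exact h3 t h2

theorem PP_sum (n : ℕ) : PP n
    = ∑ j ∈ range (4 * n + 1), MvPowerSeries.coeff (ex fun _ => n) (NN ^ j) := by
  classical
  have h1 : GG = ∑ j ∈ range (4 * n + 1), NN ^ j + GG * NN ^ (4 * n + 1) := by
    have h := geom_sum_mul_neg NN (4 * n + 1)
    have h2 := GG_mul
    linear_combination (-GG) * h + (∑ j ∈ range (4 * n + 1), NN ^ j) * h2
  have h3 : MvPowerSeries.coeff (ex fun _ => n) (GG * NN ^ (4 * n + 1)) = 0 := by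
    rw [MvPowerSeries.coeff_mul]
    apply sum_eq_zero
    rintro ⟨a, b⟩ hab
    rw [HasAntidiagonal.mem_antidiagonal] at hab
    simp only at hab ⊢
    rw [MvPowerSeries.coeff_eq_zero_of_constantCoeff_nilpotent (m := 1)
      (by rw [constCoeff_NN, pow_one]), mul_zero]
    have hb : ∀ x, b x ≤ n := by
      intro x
      have := DFunLike.congr_fun hab x
      rw [coe_ex, Finsupp.add_apply] at this
      omega
    have hdeg : Finsupp.degree b ≤ 4 * n := by
      rw [Finsupp.degree_eq_sum, Fin.sum_univ_four]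
      have := hb 0
      have := hb 1
      have := hb 2
      have := hb 3
      omega
    omega
  have h4 : PP n = MvPowerSeries.coeff (ex fun _ => n) GG := rfl
  rw [h4, h1, map_add, h3, add_zero, map_sum]

/-- weight -/
def wt (κ : Fin 7 → ℕ) : ℤ := (Nat.multinomial univ κ : ℤ) * ∏ t, dc t ^ κ t

theorem coeff_pow_NN (n j : ℕ) : MvPowerSeries.coeff (ex fun _ => n) (NN ^ j)
    = ∑ κ ∈ (piAntidiag univ j).filter (fun κ : Fin 7 → ℕ => ∀ x, ∑ t, κ t * ve t x = n), wt κ := by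
  classical
  unfold NN
  rw [sum_pow_eq_sum_piAntidiag, map_sum, sum_filter]
  apply sum_congr rfl
  intro κ _
  have e1 : ∏ t, (MvPowerSeries.monomial (ex (ve t)) (dc t) : MvPowerSeries (Fin 4) ℤ) ^ κ t
      = MvPowerSeries.monomial (ex fun x => ∑ t, κ t * ve t x) (∏ t, dc t ^ κ t) := by
    simp only [MvPowerSeries.monomial_pow]
    rw [MvPowerSeries.prod_monomial]
    congr 2
    ext x
    rw [Finsupp.finsetSum_apply, coe_ex]
    apply sum_congr rfl
    intro t _
    rw [Finsupp.smul_apply, coe_ex, smul_eq_mul]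
  rw [e1]
  have e2 : ((Nat.multinomial univ κ : ℕ) : MvPowerSeries (Fin 4) ℤ)
      = MvPowerSeries.C ((Nat.multinomial univ κ : ℕ) : ℤ) := by
    rw [map_natCast]
  rw [e2, MvPowerSeries.coeff_C_mul, MvPowerSeries.coeff_monomial]
  have e3 : ((ex fun _ => n) = ex fun x => ∑ t, κ t * ve t x) ↔ ∀ x, ∑ t, κ t * ve t x = n := by
    rw [ex_inj, funext_iff]
    exact ⟨fun h x => (h x).symm, fun h x => (h x).symm⟩
  by_cases h : ∀ x, ∑ t, κ t * ve t x = n
  · rw [if_pos h, if_pos (e3.2 h)]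
    rfl
  · rw [if_neg h, if_neg (fun h' => h (e3.1 h')), mul_zero]

/-- the admissible exponents -/
def kap (n s k a : ℕ) : Fin 7 → ℕ := ![n - s, a, a, k - a, k - a, s - k, s - k]

theorem cond_iff (κ : Fin 7 → ℕ) (n : ℕ) : (∀ x, ∑ t, κ t * ve t x = n) ↔
    (κ 0 + κ 1 + κ 3 + κ 5 = n ∧ κ 0 + κ 1 + κ 4 + κ 6 = n ∧ κ 0 + κ 2 + κ 3 + κ 6 = n
      ∧ κ 0 + κ 2 + κ 4 + κ 5 = n) := by
  rw [Fin.forall_fin_succ, Fin.forall_fin_succ, Fin.forall_fin_succ, Fin.forall_fin_succ]
  simp [Fin.sum_univ_seven, ve]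

theorem mem_set (κ : Fin 7 → ℕ) (n j : ℕ) :
    κ ∈ (piAntidiag univ j).filter (fun κ : Fin 7 → ℕ => ∀ x, ∑ t, κ t * ve t x = n) ↔
    (κ 0 + κ 1 + κ 2 + κ 3 + κ 4 + κ 5 + κ 6 = j ∧ κ 0 + κ 1 + κ 3 + κ 5 = n
      ∧ κ 0 + κ 1 + κ 4 + κ 6 = n ∧ κ 0 + κ 2 + κ 3 + κ 6 = n
      ∧ κ 0 + κ 2 + κ 4 + κ 5 = n) := by
  rw [mem_filter, cond_iff, mem_piAntidiag, Fin.sum_univ_seven]
  simp

theorem PP_triple (n : ℕ) : PP n = ∑ s ∈ range (n + 1), ∑ k ∈ range (s + 1), ∑ a ∈ range (k + 1),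
    wt (kap n s k a) := by
  rw [PP_sum]
  simp only [coeff_pow_NN, sum_sigma']
  refine sum_bij' (fun x _ => ⟨x.1 - n, ⟨x.2 1 + x.2 3, x.2 1⟩⟩)
    (fun y _ => ⟨n + y.1, kap n y.1 y.2.1 y.2.2⟩) ?_ ?_ ?_ ?_ ?_
  · rintro ⟨j, κ⟩ h
    simp only [mem_sigma, mem_range, mem_set] at h ⊢
    omega
  · rintro ⟨s, ⟨k, a⟩⟩ h
    simp only [mem_sigma, mem_range, mem_set] at h ⊢
    obtain ⟨h1, h2, h3⟩ := h
    simp only [kap, Matrix.cons_val_zero, Matrix.cons_val_one, Matrix.cons_val]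
    refine ⟨by omega, by omega, by omega, by omega, by omega, by omega⟩
  · rintro ⟨j, κ⟩ h
    simp only [mem_sigma, mem_range, mem_set] at h
    obtain ⟨h1, h2, h3, h4, h5, h6⟩ := h
    have e1 : n + (j - n) = j := by omega
    have e2 : kap n (j - n) (κ 1 + κ 3) (κ 1) = κ := by
      funext t
      fin_cases t
      · simp [kap]; omega
      · simp [kap]
      · simp [kap]; omega
      · simp [kap]
      · simp [kap]; omega
      · simp [kap]; omega
      · simp [kap]; omega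
    simp only [e1, e2]
  · rintro ⟨s, ⟨k, a⟩⟩ h
    simp only [mem_sigma, mem_range] at h
    obtain ⟨h1, h2, h3⟩ := h
    have e1 : n + s - n = s := by omega
    have e2 : a + (k - a) = k := by omega
    simp only [kap, Matrix.cons_val_one, Matrix.cons_val_zero, Matrix.cons_val, e1, e2]
  · rintro ⟨j, κ⟩ h
    simp only [mem_sigma, mem_range, mem_set] at h
    obtain ⟨h1, h2, h3, h4, h5, h6⟩ := h
    have e2 : kap n (j - n) (κ 1 + κ 3) (κ 1) = κ := by
      funext t
      fin_cases t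
      · simp [kap]; omega
      · simp [kap]
      · simp [kap]; omega
      · simp [kap]
      · simp [kap]; omega
      · simp [kap]; omega
      · simp [kap]; omega
    simp only [e2]

theorem wt_val {n s k a : ℕ} (hs : s ≤ n) (hk : k ≤ s) (ha : a ≤ k) : (wt (kap n s k a) : ℚ)
    = wB n s * ((s.choose k : ℚ) ^ 2 * (k.choose a : ℚ) ^ 2) := by
  have h := Nat.multinomial_spec univ (kap n s k a)
  rw [Fin.prod_univ_seven, Fin.sum_univ_seven] at h
  simp only [kap, Matrix.cons_val_zero, Matrix.cons_val_one, Matrix.cons_val] at h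
  have e1 : n - s + a + a + (k - a) + (k - a) + (s - k) + (s - k) = n + s := by omega
  rw [e1] at h
  have h' : ((n - s).factorial : ℚ) * a.factorial * a.factorial * (k - a).factorial * (k - a).factorial
      * (s - k).factorial * (s - k).factorial
      * (Nat.multinomial univ (![n - s, a, a, k - a, k - a, s - k, s - k] : Fin 7 → ℕ) : ℚ)
      = (n + s).factorial := by exact_mod_cast h
  unfold wt
  rw [Fin.prod_univ_seven]
  simp only [kap, dc, Matrix.cons_val_zero, Matrix.cons_val_one, Matrix.cons_val]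
  have f : ∀ q : ℕ, (q.factorial : ℚ) ≠ 0 := fun q => by exact_mod_cast q.factorial_ne_zero
  have e2 : ((-9 : ℤ) ^ (n - s) * (-1) ^ a * (-1) ^ a * (-1) ^ (k - a) * (-1) ^ (k - a)
      * (-1) ^ (s - k) * (-1) ^ (s - k)) = (-9) ^ (n - s) := by
    have g : ∀ q : ℕ, (-1 : ℤ) ^ q * (-1) ^ q = 1 := fun q => by rw [← mul_pow]; simp
    linear_combination (-9 : ℤ) ^ (n - s) * ((-1) ^ (k - a) * (-1) ^ (k - a)
      * ((-1) ^ (s - k) * (-1) ^ (s - k)) * g a + ((-1) ^ (s - k) * (-1) ^ (s - k)) * g (k - a) + g (s - k))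
  rw [e2, wB, uu_of_le _ hs, Nat.cast_choose ℚ hk, Nat.cast_choose ℚ ha]
  push_cast
  rw [← h']
  have f1 := f (n - s)
  have f2 := f s
  have f3 := f k
  have f4 := f a
  have f5 := f (s - k)
  have f6 := f (k - a)
  field_simp

theorem PP_eq_ww (n : ℕ) : (PP n : ℚ) = ww n := by
  rw [PP_triple, ww]
  push_cast
  apply sum_congr rfl
  intro s hs
  rw [mem_range] at hs
  rw [gg, mul_sum]
  apply sum_congr rfl
  intro k hk
  rw [mem_range] at hk
  have h1 : (k.centralBinom : ℚ) = ∑ a ∈ range (k + 1), (k.choose a : ℚ) ^ 2 := by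
    rw [Nat.centralBinom_eq_two_mul_choose, ← Nat.sum_range_choose_sq]
    push_cast
    rfl
  rw [gF, h1, mul_sum, mul_sum]
  apply sum_congr rfl
  intro a ha
  rw [mem_range] at ha
  rw [wt_val (by omega) (by omega) (by omega)]

theorem PP_eq_zz (n : ℕ) : (PP n : ℚ) = zz n := by
  rw [PP_eq_ww, zz_eq_ww]

end Pool.Agent.W35.AZ
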