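import Pool.Agent.W35.AZ.Assemble
import Pool.Agent.W35.AZ.Mac

open Finset

namespace Pool.Agent.W35.AZ

/-- the Almkvist-Zudilin numbers -/
def ZZ (n : ℕ) : ℤ := ∑ k ∈ range (n / 3 + 1), (-3 : ℤ) ^ (n - 3 * k) *
  (((Nat.factorial (n + k)) / (Nat.factorial (n - 3 * k) * (Nat.factorial k) ^ 4) : ℕ) : ℤ)

theorem fact_dvd {n k : ℕ} (h : 3 * k ≤ n) :
    Nat.factorial (n - 3 * k) * (Nat.factorial k) ^ 4 ∣ Nat.factorial (n + k) := by
  have h1 := Nat.prod_factorial_dvd_factorial_sum (univ : Finset (Fin 5)) ![n - 3 * k, k, k, k, k]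
  rw [Fin.prod_univ_five, Fin.sum_univ_five] at h1
  simp only [Matrix.cons_val_zero, Matrix.cons_val_one, Matrix.cons_val] at h1
  have e1 : n - 3 * k + k + k + k + k = n + k := by omega
  rw [e1] at h1
  have e2 : Nat.factorial (n - 3 * k) * (Nat.factorial k) ^ 4
      = Nat.factorial (n - 3 * k) * Nat.factorial k * Nat.factorial k * Nat.factorial k
        * Nat.factorial k := by ring
  rw [e2]
  exact h1

theorem ZZ_eq_zz (n : ℕ) : (ZZ n : ℚ) = zz n := by
  unfold ZZ zz
  simp only [Int.cast_sum, Int.cast_mul, Int.cast_pow, Int.cast_neg, Int.cast_ofNat,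
    Int.cast_natCast]
  have hsub : range (n / 3 + 1) ⊆ range (n + 1) := by
    intro k hk
    rw [mem_range] at hk ⊢
    omega
  rw [← sum_subset hsub (f := fun k => zF n k)]
  · apply sum_congr rfl
    intro k hk
    rw [mem_range] at hk
    have h3 : 3 * k ≤ n := by omega
    rw [Nat.cast_div (fact_dvd h3)]
    · unfold zF
      rw [uu_of_le _ h3]
      push_cast
      have f : ∀ q : ℕ, (q.factorial : ℚ) ≠ 0 := fun q => by exact_mod_cast q.factorial_ne_zero
      have f1 := f (n - 3 * k)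
      have f2 := f k
      field_simp
    · push_cast
      have f : ∀ q : ℕ, (q.factorial : ℚ) ≠ 0 := fun q => by exact_mod_cast q.factorial_ne_zero
      exact mul_ne_zero (f _) (pow_ne_zero _ (f _))
  · intro k _ hk
    rw [mem_range, not_lt] at hk
    unfold zF
    rw [uu_zero _ (by omega)]
    simp

theorem PP_eq_ZZ (n : ℕ) : PP n = ZZ n := by
  have : (PP n : ℚ) = (ZZ n : ℚ) := by rw [PP_eq_zz, ZZ_eq_zz]
  exact_mod_cast this

theorem three_dvd_quot {k : ℕ} (hk : 1 ≤ k) :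
    3 ∣ Nat.factorial (3 * k + k) / (Nat.factorial (3 * k - 3 * k) * (Nat.factorial k) ^ 4) := by
  have c1 := Nat.add_choose_mul_factorial_mul_factorial (3 * k) k
  have c2 := Nat.add_choose_mul_factorial_mul_factorial (2 * k) k
  have c3 := Nat.add_choose_mul_factorial_mul_factorial k k
  have e2 : 2 * k + k = 3 * k := by ring
  have e3 : k + k = 2 * k := by ring
  rw [e2] at c2
  rw [e3] at c3
  have h1 : Nat.factorial (3 * k + k) = ((3 * k + k).choose k * (3 * k).choose k * (2 * k).choose k)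
      * (Nat.factorial (3 * k - 3 * k) * (Nat.factorial k) ^ 4) := by
    rw [← c1, ← c2, ← c3, Nat.sub_self, Nat.factorial_zero]
    ring
  rw [h1, Nat.mul_div_cancel _ (by positivity)]
  have h2 : 3 ∣ (3 * k).choose k := by
    have h5 := Nat.add_one_mul_choose_eq (3 * k - 1) (k - 1)
    have e1 : 3 * k - 1 + 1 = 3 * k := by omega
    have e2 : k - 1 + 1 = k := by omega
    rw [e1, e2] at h5
    have h6 : (3 * k).choose k = 3 * (3 * k - 1).choose (k - 1) := by
      apply Nat.eq_of_mul_eq_mul_right (show 0 < k by omega)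
      rw [← h5]
      ring
    rw [h6]
    exact dvd_mul_right _ _
  exact (h2.mul_left _).mul_right _

theorem three_dvd_ZZ {n : ℕ} (hn : 1 ≤ n) : (3 : ℤ) ∣ ZZ n := by
  unfold ZZ
  apply dvd_sum
  intro k hk
  rw [mem_range] at hk
  rcases Nat.eq_zero_or_pos (n - 3 * k) with h | h
  · have h3 : n = 3 * k := by omega
    subst h3
    apply Dvd.dvd.mul_left
    have := three_dvd_quot (k := k) (by omega)
    exact_mod_cast this
  · apply Dvd.dvd.mul_right
    exact (by norm_num : (3 : ℤ) ∣ -3).trans (dvd_pow_self _ h.ne')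

theorem ZZ_congr {p m r : ℕ} (hp : p.Prime) (h3 : 3 ≤ p) (hm : 1 ≤ m) (hr : 1 ≤ r) :
    Int.ModEq ((p : ℤ) ^ (3 * r)) (ZZ (p ^ r * m)) (ZZ (p ^ (r - 1) * m)) := by
  have : Fact p.Prime := ⟨hp⟩
  obtain ⟨s, rfl⟩ : ∃ s, r = s + 1 := ⟨r - 1, by omega⟩
  have hN : 1 ≤ p ^ s * m := Nat.mul_pos (pow_pos hp.pos s) hm
  have h := PP_congr p (by omega) (r := s) hN (dvd_mul_right _ _)
    (fun _ => by rw [PP_eq_ZZ]; exact three_dvd_ZZ hN)
  rw [PP_eq_ZZ, PP_eq_ZZ] at h
  have e : p ^ (s + 1) * m = p * (p ^ s * m) := by ring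
  rw [e, Nat.add_sub_cancel]
  exact (Int.modEq_iff_dvd.2 h).symm

end Pool.Agent.W35.AZ
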