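import Pool.Agent.W35.AZ.Claim1

open Finset

namespace Pool.Agent.W35.AZ

variable (p : ℕ) [hp : Fact p.Prime]

theorem exists_kl : ∀ i j : Fin 4, i ≠ j → ∃ k l : Fin 4, i ≠ k ∧ i ≠ l ∧ j ≠ k ∧ j ≠ l ∧ k ≠ l := by
  decide

theorem two_bad (hodd : p ≠ 2) {r n : ℕ} (hr : 1 ≤ r) (hn : p ^ r ∣ n) {i j : Fin 4} (hij : i ≠ j) :
    (p : ℤ_[p]) ^ (3 * r) ∣
      ((∑ E ∈ (MM n).filter (fun E => bad p E = {i, j}), TT E : ℤ) : ℤ_[p]) := by
  obtain ⟨k, l, hik, hil, hjk, hjl, hkl⟩ := exists_kl i j hij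
  set F := (MM n).filter (fun E => bad p E = {i, j}) with hF
  rw [← sum_fiberwise_of_maps_to (s := F) (t := F.image (fun E => (E k, E l)))
    (g := fun E => (E k, E l)) (fun E hE => mem_image_of_mem _ hE)]
  rw [Int.cast_sum]
  apply dvd_sum
  intro uv huv
  rw [mem_image] at huv
  obtain ⟨E0, hE0, rfl⟩ := huv
  have h := fiber p hodd hr hn hij hik hil hjk hjl hkl hE0
  have e : F.filter (fun E => (E k, E l) = (E0 k, E0 l))
      = F.filter (fun E => E k = E0 k ∧ E l = E0 l) := by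
    apply filter_congr
    intro E _
    rw [Prod.mk.injEq]
  rw [e]
  exact h

theorem claim1 (hodd : p ≠ 2) {r n : ℕ} (hr : 1 ≤ r) (hn : p ^ r ∣ n) :
    (p : ℤ_[p]) ^ (3 * r) ∣
      ((∑ E ∈ (MM n).filter (fun E => bad p E ≠ ∅), TT E : ℤ) : ℤ_[p]) := by
  set F := (MM n).filter (fun E => bad p E ≠ ∅) with hF
  rw [← sum_fiberwise_of_maps_to (s := F) (t := univ)
    (g := fun E => bad p E) (fun E _ => mem_univ _)]
  rw [Int.cast_sum]
  apply dvd_sum
  intro S _
  rcases Nat.lt_or_ge S.card 3 with h3 | h3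
  · interval_cases hc : S.card
    · have hS : S = ∅ := card_eq_zero.1 hc
      rw [sum_eq_zero]
      · simp
      · intro E hE
        simp only [hF, mem_filter] at hE
        exact absurd (hE.2.trans hS) hE.1.2
    · rw [sum_eq_zero]
      · simp
      · intro E hE
        exfalso
        simp only [hF, mem_filter] at hE
        have hM := (mem_MM.1 hE.1.1).2.2
        exact one_bad ((dvd_pow_self p (by omega)).trans hn) hM (by rw [hE.2]; exact hc)
    · obtain ⟨i, j, hij, rfl⟩ := card_eq_two.1 hc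
      have e : F.filter (fun E => bad p E = {i, j}) = (MM n).filter (fun E => bad p E = {i, j}) := by
        rw [hF, filter_filter]
        apply filter_congr
        intro E _
        constructor
        · exact fun h => h.2
        · intro h
          refine ⟨?_, h⟩
          rw [h]
          exact insert_ne_empty _ _
      rw [e]
      exact two_bad p hodd hr hn hij
  · rw [Int.cast_sum]
    apply dvd_sum
    intro E hE
    simp only [hF, mem_filter] at hE
    rw [PadicInt.pow_p_dvd_int_iff]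
    exact three_bad hp.out hn (mem_MM.1 hE.1.1).1 (by rw [hE.2]; exact h3)

theorem good_sum (N : ℕ) : ∑ E ∈ (MM (p * N)).filter (fun E => ¬ bad p E ≠ ∅), TT E
    = ∑ E ∈ MM N, TT (fun x y => p * E x y) := by
  have hp0 : 0 < p := hp.out.pos
  symm
  refine sum_nbij' (fun E => fun x y => p * E x y) (fun E => fun x y => E x y / p) ?_ ?_ ?_ ?_ ?_
  · intro E hE
    rw [mem_MM] at hE
    simp only [mem_filter, mem_MM, not_not]
    refine ⟨⟨?_, ?_, ?_⟩, ?_⟩
    · intro x; rw [← mul_sum, hE.1 x]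
    · intro x; rw [hE.2.1 x, mul_zero]
    · intro y; rw [← mul_sum, hE.2.2 y]
    · rw [eq_empty_iff_forall_notMem]
      intro x hx
      obtain ⟨y, hy⟩ := mem_bad.1 hx
      exact hy (dvd_mul_right _ _)
  · intro E hE
    simp only [mem_filter, mem_MM, not_not] at hE
    obtain ⟨⟨h1, h2, h3⟩, hb⟩ := hE
    have hd : ∀ x y, p ∣ E x y := by
      intro x y
      by_contra h
      have : x ∈ bad p E := mem_bad.2 ⟨y, h⟩
      rw [hb] at this
      exact absurd this (notMem_empty x)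
    rw [mem_MM]
    refine ⟨?_, ?_, ?_⟩
    · intro x
      apply Nat.eq_of_mul_eq_mul_left hp0
      rw [← h1 x, mul_sum]
      exact sum_congr rfl (fun y _ => Nat.mul_div_cancel' (hd x y))
    · intro x; rw [h2 x, Nat.zero_div]
    · intro y
      apply Nat.eq_of_mul_eq_mul_left hp0
      rw [← h3 y, mul_sum]
      exact sum_congr rfl (fun x _ => Nat.mul_div_cancel' (hd x y))
  · intro E _
    funext x y
    exact Nat.mul_div_cancel_left _ hp0
  · intro E hE
    simp only [mem_filter, mem_MM, not_not] at hE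
    obtain ⟨⟨h1, h2, h3⟩, hb⟩ := hE
    funext x y
    apply Nat.mul_div_cancel'
    by_contra h
    have : x ∈ bad p E := mem_bad.2 ⟨y, h⟩
    rw [hb] at this
    exact absurd this (notMem_empty x)
  · intro E _
    rfl

/-- the supercongruence for the coefficients -/
theorem PP_congr (hodd : p ≠ 2) {r N : ℕ} (hN : 1 ≤ N) (hr : p ^ r ∣ N) (h3 : p = 3 → (3 : ℤ) ∣ PP N) :
    ((p : ℤ) ^ (3 * (r + 1))) ∣ PP (p * N) - PP N := by
  have hn : p ^ (r + 1) ∣ p * N := by
    rw [pow_succ']; exact Nat.mul_dvd_mul_left p hr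
  have c1 := claim1 p hodd (r := r + 1) (by omega) hn
  obtain ⟨n, rfl⟩ : ∃ n, N = n + 1 := ⟨N - 1, by omega⟩
  have c2 := claim2 p hodd n h3
  have c2' : (p : ℤ_[p]) ^ (3 * (r + 1)) ∣
      ((∑ E ∈ MM (n + 1), TT (fun x y => p * E x y) : ℤ) : ℤ_[p]) - (PP (n + 1) : ℤ_[p]) := by
    refine Dvd.dvd.trans ?_ c2
    obtain ⟨w, hw⟩ := natCast_dvd p hr
    rw [hw]
    exact ⟨w ^ 3, by ring⟩
  rw [← PadicInt.pow_p_dvd_int_iff]
  have e : PP (p * (n + 1)) = ∑ E ∈ (MM (p * (n + 1))).filter (fun E => bad p E ≠ ∅), TT E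
      + ∑ E ∈ MM (n + 1), TT (fun x y => p * E x y) := by
    rw [← good_sum, PP_eq, sum_filter_add_sum_filter_not]
  rw [e]
  push_cast at c1 c2' ⊢
  have e2 : (∑ E ∈ (MM (p * (n + 1))).filter (fun E => bad p E ≠ ∅), (TT E : ℤ_[p])
      + ∑ E ∈ MM (n + 1), (TT (fun x y => p * E x y) : ℤ_[p])) - (PP (n + 1) : ℤ_[p])
      = ∑ E ∈ (MM (p * (n + 1))).filter (fun E => bad p E ≠ ∅), (TT E : ℤ_[p])
      + (∑ E ∈ MM (n + 1), (TT (fun x y => p * E x y) : ℤ_[p]) - (PP (n + 1) : ℤ_[p])) := by ring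
  rw [e2]
  exact dvd_add c1 c2'

end Pool.Agent.W35.AZ
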