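import Pool.Agent.W35.AZ.Claim2

open Finset

namespace Pool.Agent.W35.AZ

/-- the rows with an entry prime to `p` -/
def bad (p : ℕ) (E : Fin 4 → Fin 4 → ℕ) : Finset (Fin 4) := univ.filter (fun x => ∃ y, ¬ p ∣ E x y)

theorem mem_bad {p : ℕ} {E : Fin 4 → Fin 4 → ℕ} {x : Fin 4} : x ∈ bad p E ↔ ∃ y, ¬ p ∣ E x y := by
  simp [bad]

theorem pow_dvd_of {p r s a b : ℕ} (hp : p.Prime) (hs : s ≤ r) (h : p ^ r ∣ a * b) (h1 : p ^ s ∣ a)
    (h2 : ¬ p ^ (s + 1) ∣ a) : p ^ (r - s) ∣ b := by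
  obtain ⟨c, rfl⟩ := h1
  have h3 : ¬ p ∣ c := by
    intro h3
    apply h2
    rw [pow_succ]
    exact mul_dvd_mul_left _ h3
  have h4 : p ^ r = p ^ s * p ^ (r - s) := by rw [← pow_add]; congr 1; omega
  rw [h4, mul_assoc] at h
  have h5 : p ^ (r - s) ∣ c * b := (Nat.mul_dvd_mul_iff_left (pow_pos hp.pos s)).1 h
  exact (Nat.Coprime.pow_left _ ((Nat.Prime.coprime_iff_not_dvd hp).2 h3)).dvd_of_dvd_mul_left h5

theorem bad_dvd {p r n : ℕ} (hp : p.Prime) (hn : p ^ r ∣ n) {E : Fin 4 → Fin 4 → ℕ}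
    (h1 : ∀ x, ∑ y, E x y = n) {x : Fin 4} (hx : x ∈ bad p E) :
    ((p : ℤ) ^ r) ∣ rowT x (E x) := by
  rw [mem_bad] at hx
  obtain ⟨y, hy⟩ := hx
  have h := dvd_mult (E x) y
  rw [h1 x] at h
  have h2 := pow_dvd_of (s := 0) hp (Nat.zero_le r) (hn.trans h) (by simp) (by simpa using hy)
  unfold rowT
  apply Dvd.dvd.mul_left
  have h3 : p ^ r ∣ Nat.multinomial univ (E x) := by simpa using h2
  exact_mod_cast h3

theorem three_bad {p r n : ℕ} (hp : p.Prime) (hn : p ^ r ∣ n) {E : Fin 4 → Fin 4 → ℕ}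
    (h1 : ∀ x, ∑ y, E x y = n) (h3 : 3 ≤ (bad p E).card) : ((p : ℤ) ^ (3 * r)) ∣ TT E := by
  have h : (∏ x, (if x ∈ bad p E then (p : ℤ) ^ r else 1)) ∣ TT E := by
    unfold TT
    apply prod_dvd_prod_of_dvd
    intro x _
    split_ifs with hx
    · exact bad_dvd hp hn h1 hx
    · exact one_dvd _
  have e : (∏ x, (if x ∈ bad p E then (p : ℤ) ^ r else 1)) = ((p : ℤ) ^ r) ^ (bad p E).card := by
    rw [prod_ite_mem, univ_inter, prod_const]
  rw [e, ← pow_mul] at h
  refine (pow_dvd_pow _ ?_).trans h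
  rw [mul_comm]
  exact Nat.mul_le_mul_left r h3

theorem one_bad {p n : ℕ} (hn : p ∣ n) {E : Fin 4 → Fin 4 → ℕ}
    (h2 : ∀ y, ∑ x, E x y = n) (h3 : (bad p E).card = 1) : False := by
  rw [card_eq_one] at h3
  obtain ⟨x, hx⟩ := h3
  have hx1 : x ∈ bad p E := by rw [hx]; exact mem_singleton_self x
  obtain ⟨y, hy⟩ := mem_bad.1 hx1
  apply hy
  have h4 := h2 y
  rw [← add_sum_erase _ _ (mem_univ x)] at h4
  have h5 : p ∣ ∑ x' ∈ univ.erase x, E x' y := by
    apply dvd_sum
    intro x' hx'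
    by_contra h6
    have : x' ∈ bad p E := mem_bad.2 ⟨y, h6⟩
    rw [hx, mem_singleton] at this
    exact (ne_of_mem_erase hx') this
  rw [← h4] at hn
  exact (Nat.dvd_add_left h5).1 hn

theorem sum_four {A : Type*} [AddCommMonoid A] {i j k l : Fin 4} (hij : i ≠ j) (hik : i ≠ k)
    (hil : i ≠ l) (hjk : j ≠ k) (hjl : j ≠ l) (hkl : k ≠ l) (f : Fin 4 → A) :
    ∑ x, f x = f i + (f j + (f k + f l)) := by
  have hu : (univ : Finset (Fin 4)) = {i, j, k, l} := by
    revert i j k l; decide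
  rw [hu, sum_insert (by simp [hij, hik, hil]), sum_insert (by simp [hjk, hjl]),
    sum_insert (by simp [hkl]), sum_singleton]

theorem prod_four {A : Type*} [CommMonoid A] {i j k l : Fin 4} (hij : i ≠ j) (hik : i ≠ k)
    (hil : i ≠ l) (hjk : j ≠ k) (hjl : j ≠ l) (hkl : k ≠ l) (f : Fin 4 → A) :
    ∏ x, f x = f i * (f j * (f k * f l)) := by
  have hu : (univ : Finset (Fin 4)) = {i, j, k, l} := by
    revert i j k l; decide
  rw [hu, prod_insert (by simp [hij, hik, hil]), prod_insert (by simp [hjk, hjl]),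
    prod_insert (by simp [hkl]), prod_singleton]

theorem all_four {i j k l : Fin 4} (hij : i ≠ j) (hik : i ≠ k)
    (hil : i ≠ l) (hjk : j ≠ k) (hjl : j ≠ l) (hkl : k ≠ l) (x : Fin 4) :
    x = i ∨ x = j ∨ x = k ∨ x = l := by
  revert i j k l x; decide

theorem sign_four' : ∀ i j k l : Fin 4, i ≠ j ∧ i ≠ k ∧ i ≠ l ∧ j ≠ k ∧ j ≠ l ∧ k ≠ l →
    cc i k * cc i l * cc j k * cc j l = -1 := by
  decide

theorem sign_four {i j k l : Fin 4} (hij : i ≠ j) (hik : i ≠ k)
    (hil : i ≠ l) (hjk : j ≠ k) (hjl : j ≠ l) (hkl : k ≠ l) :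
    cc i k * cc i l * cc j k * cc j l = -1 :=
  sign_four' i j k l ⟨hij, hik, hil, hjk, hjl, hkl⟩

theorem cc_sq' : ∀ i j : Fin 4, i ≠ j → cc i j * cc i j = 1 := by
  decide

theorem cc_sq {i j : Fin 4} (hij : i ≠ j) : cc i j * cc i j = 1 := cc_sq' i j hij

theorem dvd_choose_mul (n R : ℕ) : n ∣ R * n.choose R := by
  rcases Nat.eq_zero_or_pos R with rfl | hR
  · simp
  rcases Nat.eq_zero_or_pos n with rfl | hn
  · rw [Nat.choose_eq_zero_of_lt hR, mul_zero]
  · have h5 := Nat.add_one_mul_choose_eq (n - 1) (R - 1)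
    have e1 : n - 1 + 1 = n := by omega
    have e2 : R - 1 + 1 = R := by omega
    rw [e1, e2] at h5
    rw [mul_comm, ← h5]
    exact dvd_mul_right _ _

theorem exists_s {p r n : ℕ} (hp : p.Prime) (hr : 1 ≤ r) (hn : p ^ r ∣ n) {u v : Fin 4 → ℕ}
    (hu : ∑ y, u y = n) (hv : ∑ y, v y = n) (hpu : ∀ y, p ∣ u y) (hpv : ∀ y, p ∣ v y) :
    ∃ s, 1 ≤ s ∧ s ≤ r ∧ (∀ y, p ^ s ∣ u y) ∧ (∀ y, p ^ s ∣ v y) ∧
      p ^ (r - s) ∣ Nat.multinomial univ u * Nat.multinomial univ v := by
  classical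
  set P : ℕ → Prop := fun s => ∀ y, p ^ s ∣ u y ∧ p ^ s ∣ v y with hP
  have h1 : P 1 := fun y => by simpa using ⟨hpu y, hpv y⟩
  set s := Nat.findGreatest P r with hs
  have hs1 : 1 ≤ s := Nat.le_findGreatest hr h1
  have hsr : s ≤ r := Nat.findGreatest_le r
  have hPs : P s := Nat.findGreatest_spec hr h1
  refine ⟨s, hs1, hsr, fun y => (hPs y).1, fun y => (hPs y).2, ?_⟩
  rcases hsr.lt_or_eq with hlt | heq
  · have hnot : ¬ P (s + 1) := by
      intro h
      have := Nat.le_findGreatest (P := P) hlt h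
      omega
    simp only [hP, not_forall] at hnot
    obtain ⟨y, hy⟩ := hnot
    rw [not_and_or] at hy
    rcases hy with hy | hy
    · have h := dvd_mult u y
      rw [hu] at h
      exact (pow_dvd_of hp hsr (hn.trans h) (hPs y).1 hy).mul_right _
    · have h := dvd_mult v y
      rw [hv] at h
      exact (pow_dvd_of hp hsr (hn.trans h) (hPs y).2 hy).mul_left _
  · rw [heq]; simp

theorem mult_perm {i j k l : Fin 4} (hij : i ≠ j) (hik : i ≠ k)
    (hil : i ≠ l) (hjk : j ≠ k) (hjl : j ≠ l) (hkl : k ≠ l) (w : Fin 4 → ℕ) :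
    Nat.multinomial univ w = (w i + (w j + (w k + w l))).choose (w i)
      * ((w j + (w k + w l)).choose (w j) * (w k + w l).choose (w k)) := by
  have h := Nat.multinomial_spec univ w
  rw [prod_four hij hik hil hjk hjl hkl, sum_four hij hik hil hjk hjl hkl] at h
  have c1 := Nat.add_choose_mul_factorial_mul_factorial (w i) (w j + (w k + w l))
  have c2 := Nat.add_choose_mul_factorial_mul_factorial (w j) (w k + w l)
  have c3 := Nat.add_choose_mul_factorial_mul_factorial (w k) (w l)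
  have hpos : 0 < (w i).factorial * ((w j).factorial * ((w k).factorial * (w l).factorial)) := by
    positivity
  apply Nat.eq_of_mul_eq_mul_left hpos
  rw [h]
  have s1 : (w i + (w j + (w k + w l))).choose (w i)
      = (w i + (w j + (w k + w l))).choose (w j + (w k + w l)) := Nat.choose_symm_add
  have s2 : (w j + (w k + w l)).choose (w j) = (w j + (w k + w l)).choose (w k + w l) :=
    Nat.choose_symm_add
  have s3 : (w k + w l).choose (w k) = (w k + w l).choose (w l) := Nat.choose_symm_add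
  rw [s1, s2, s3, ← c1, ← c2, ← c3]
  ring

theorem rowT_val {x z k l : Fin 4} (hxz : x ≠ z) (hxk : x ≠ k)
    (hxl : x ≠ l) (hzk : z ≠ k) (hzl : z ≠ l) (hkl : k ≠ l) {v : Fin 4 → ℕ} {n R a : ℕ}
    (hx : v x = 0) (hz : v z = n - R) (hk : v k = a) (hl : v l = R - a) (hR : R ≤ n) (ha : a ≤ R) :
    rowT x v = cc x z ^ (n - R) * cc x k ^ a * cc x l ^ (R - a)
      * ((n.choose R : ℤ) * (R.choose a : ℤ)) := by
  unfold rowT
  rw [prod_four hxz hxk hxl hzk hzl hkl, mult_perm hxz hxk hxl hzk hzl hkl, hx, hz, hk, hl]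
  have e1 : a + (R - a) = R := by omega
  have e2 : n - R + R = n := by omega
  rw [e1, e2, Nat.choose_zero_right, Nat.choose_symm hR]
  push_cast
  ring

theorem pow_sub_sq {c : ℤ} (h : c * c = 1) {m a : ℕ} (h2 : a ≤ m) : c ^ (m - a) = c ^ m * c ^ a := by
  have h3 : c ^ m = c ^ (m - a) * c ^ a := by rw [← pow_add]; congr 1; omega
  rw [h3, mul_assoc, ← mul_pow, h, one_pow, mul_one]

theorem sign_id {A B C D : ℤ} (hB : B * B = 1) (hC : C * C = 1) (hD : D * D = 1)
    (h : A * B * C * D = -1) {R1 R2 Cc a : ℕ} (h1 : a ≤ R1) (h2 : a ≤ Cc) (h3 : Cc - a ≤ R2) :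
    A ^ a * B ^ (R1 - a) * (C ^ (Cc - a) * D ^ (R2 - (Cc - a)))
      = (-1) ^ a * (B ^ R1 * C ^ Cc * (D ^ R2 * D ^ Cc)) := by
  rw [pow_sub_sq hB h1, pow_sub_sq hD h3, pow_sub_sq hC h2, pow_sub_sq hD h2, ← h]
  rw [mul_pow, mul_pow, mul_pow]
  ring

/-- row with given entries -/
def rw4 (i j k : Fin 4) (e0 e1 e2 e3 : ℕ) : Fin 4 → ℕ :=
  fun y => if y = i then e0 else if y = j then e1 else if y = k then e2 else e3

/-- matrix with given rows -/
def mk4 (i j k : Fin 4) (ri rj u v : Fin 4 → ℕ) : Fin 4 → Fin 4 → ℕ :=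
  fun x => if x = i then ri else if x = j then rj else if x = k then u else v

set_option linter.unusedSimpArgs false in
theorem fiber (p : ℕ) [hp : Fact p.Prime] (hodd : p ≠ 2) {r n : ℕ} (hr : 1 ≤ r) (hn : p ^ r ∣ n)
    {i j k l : Fin 4} (hij : i ≠ j) (hik : i ≠ k)
    (hil : i ≠ l) (hjk : j ≠ k) (hjl : j ≠ l) (hkl : k ≠ l) {E0 : Fin 4 → Fin 4 → ℕ}
    (hE0 : E0 ∈ (MM n).filter (fun E => bad p E = {i, j})) :
    (p : ℤ_[p]) ^ (3 * r) ∣ ((∑ E ∈ ((MM n).filter (fun E => bad p E = {i, j})).filter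
      (fun E => E k = E0 k ∧ E l = E0 l), TT E : ℤ) : ℤ_[p]) := by
  have hpn : p ∣ n := (dvd_pow_self p (by omega)).trans hn
  set u := E0 k with hu
  set v := E0 l with hv
  -- facts valid for every matrix in the fiber
  have facts : ∀ E : Fin 4 → Fin 4 → ℕ, E ∈ MM n → bad p E = {i, j} → E k = u → E l = v →
      E i i = 0 ∧ E j j = 0 ∧ u k = 0 ∧ v l = 0 ∧
      (0 + (E i j + (E i k + E i l)) = n) ∧ (E j i + (0 + (E j k + E j l)) = n) ∧
      (u i + (u j + (0 + u l)) = n) ∧ (v i + (v j + (v k + 0)) = n) ∧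
      (0 + (E j i + (u i + v i)) = n) ∧ (E i j + (0 + (u j + v j)) = n) ∧
      (E i k + (E j k + (0 + v k)) = n) ∧ (E i l + (E j l + (u l + 0)) = n) ∧
      (∀ y, p ∣ u y) ∧ (∀ y, p ∣ v y) ∧ ¬ p ∣ E i k := by
    intro E hE hb hk hl
    rw [mem_MM] at hE
    obtain ⟨h1, hd, h2⟩ := hE
    have d1 := hd i
    have d2 := hd j
    have d3 := hd k
    have d4 := hd l
    rw [hk] at d3
    rw [hl] at d4
    have r1 := h1 i
    have r2 := h1 j
    have r3 := h1 k
    have r4 := h1 l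
    have c1 := h2 i
    have c2 := h2 j
    have c3 := h2 k
    have c4 := h2 l
    rw [sum_four hij hik hil hjk hjl hkl] at r1 r2 r3 r4 c1 c2 c3 c4
    rw [hk] at r3 c1 c2 c3 c4
    rw [hl] at r4 c1 c2 c3 c4
    rw [d1] at r1 c1
    rw [d2] at r2 c2
    rw [d3] at r3 c3
    rw [d4] at r4 c4
    have hpu : ∀ y, p ∣ u y := by
      intro y
      by_contra h
      have : k ∈ bad p E := mem_bad.2 ⟨y, by rw [hk]; exact h⟩
      rw [hb] at this
      simp [hik.symm, hjk.symm] at this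
    have hpv : ∀ y, p ∣ v y := by
      intro y
      by_contra h
      have : l ∈ bad p E := mem_bad.2 ⟨y, by rw [hl]; exact h⟩
      rw [hb] at this
      simp [hil.symm, hjl.symm] at this
    have hij' : p ∣ E i j := by
      have h3 : p ∣ 0 + (u j + v j) := by
        rw [zero_add]; exact dvd_add (hpu j) (hpv j)
      rw [← c2] at hpn
      exact (Nat.dvd_add_left h3).1 hpn
    have hik' : ¬ p ∣ E i k := by
      intro h
      have hi : i ∈ bad p E := by rw [hb]; simp
      obtain ⟨y, hy⟩ := mem_bad.1 hi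
      apply hy
      rcases all_four hij hik hil hjk hjl hkl y with rfl | rfl | rfl | rfl
      · rw [d1]; exact dvd_zero p
      · exact hij'
      · exact h
      · rw [← r1, zero_add] at hpn
        have := (Nat.dvd_add_right hij').1 hpn
        exact (Nat.dvd_add_right h).1 this
    exact ⟨d1, d2, d3, d4, r1, r2, r3, r4, c1, c2, c3, c4, hpu, hpv, hik'⟩
  have hE0' := mem_filter.1 hE0
  have F0 := facts E0 hE0'.1 hE0'.2 rfl rfl
  obtain ⟨-, -, uk, vl, -, -, su, sv, ci0, cj0, -, -, hpu, hpv, -⟩ := F0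
  -- the parameters
  obtain ⟨R1, hR1⟩ : ∃ R1, R1 = u j + v j := ⟨_, rfl⟩
  obtain ⟨R2, hR2⟩ : ∃ R2, R2 = u i + v i := ⟨_, rfl⟩
  obtain ⟨Cc, hCc⟩ : ∃ Cc, Cc = n - v k := ⟨_, rfl⟩
  have hR1n : R1 ≤ n := by omega
  have hR2n : R2 ≤ n := by omega
  have hCc' : Cc + v k = n := by omega
  have hpC : p ∣ Cc := by
    rw [← hCc'] at hpn
    exact (Nat.dvd_add_left (hpv k)).1 hpn
  set K : ℤ := rowT k u * rowT l v * (cc i j ^ (n - R1) * cc j i ^ (n - R2))
    * ((n.choose R1 : ℤ) * (n.choose R2 : ℤ)) * (cc i l ^ R1 * cc j k ^ Cc * (cc j l ^ R2 * cc j l ^ Cc))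
    with hK
  have key : ∑ E ∈ ((MM n).filter (fun E => bad p E = {i, j})).filter
      (fun E => E k = u ∧ E l = v), TT E
      = ∑ a ∈ (range (Cc + 1)).filter (fun a => ¬ p ∣ a ∧ a ≤ R1 ∧ Cc - a ≤ R2),
        K * ((-1) ^ a * (R1.choose a : ℤ) * (R2.choose (Cc - a) : ℤ)) := by
    refine sum_nbij' (fun E => E i k) (fun a => mk4 i j k (rw4 i j k 0 (n - R1) a (R1 - a))
      (rw4 i j k (n - R2) 0 (Cc - a) (R2 - (Cc - a))) u v) ?_ ?_ ?_ ?_ ?_
    · intro E hE
      simp only [mem_filter] at hE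
      obtain ⟨⟨hE1, hb⟩, hk, hl⟩ := hE
      obtain ⟨d1, d2, d3, d4, r1, r2, r3, r4, c1, c2, c3, c4, -, -, hik'⟩ := facts E hE1 hb hk hl
      simp only [mem_filter, mem_range]
      refine ⟨by omega, hik', by omega, by omega⟩
    · intro a ha
      simp only [mem_filter, mem_range] at ha
      obtain ⟨ha1, ha2, ha3, ha4⟩ := ha
      simp only [mem_filter]
      have nCa : ¬ p ∣ Cc - a := fun h => ha2 ((Nat.dvd_sub_iff_right (by omega) hpC).1 h)
      refine ⟨⟨?_, ?_⟩, ?_, ?_⟩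
      · rw [mem_MM]
        refine ⟨?_, ?_, ?_⟩
        · intro x
          rw [sum_four hij hik hil hjk hjl hkl]
          rcases all_four hij hik hil hjk hjl hkl x with rfl | rfl | rfl | rfl
          · simp [mk4, rw4, hij, hij.symm, hik, hik.symm, hil, hil.symm, hjk, hjk.symm, hjl,
              hjl.symm, hkl, hkl.symm]
            omega
          · simp [mk4, rw4, hij, hij.symm, hik, hik.symm, hil, hil.symm, hjk, hjk.symm, hjl,
              hjl.symm, hkl, hkl.symm]
            omega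
          · simp [mk4, hij, hij.symm, hik, hik.symm, hil, hil.symm, hjk, hjk.symm, hjl,
              hjl.symm, hkl, hkl.symm]
            omega
          · simp [mk4, hij, hij.symm, hik, hik.symm, hil, hil.symm, hjk, hjk.symm, hjl,
              hjl.symm, hkl, hkl.symm]
            omega
        · intro x
          rcases all_four hij hik hil hjk hjl hkl x with rfl | rfl | rfl | rfl
          · simp [mk4, rw4]
          · simp [mk4, rw4, hij, hij.symm]
          · simp [mk4, hik.symm, hjk.symm, uk]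
          · simp [mk4, hil.symm, hjl.symm, hkl.symm, vl]
        · intro y
          rw [sum_four hij hik hil hjk hjl hkl]
          rcases all_four hij hik hil hjk hjl hkl y with rfl | rfl | rfl | rfl
          · simp [mk4, rw4, hij, hij.symm, hik, hik.symm, hil, hil.symm, hjk, hjk.symm, hjl,
              hjl.symm, hkl, hkl.symm]
            omega
          · simp [mk4, rw4, hij, hij.symm, hik, hik.symm, hil, hil.symm, hjk, hjk.symm, hjl,
              hjl.symm, hkl, hkl.symm]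
            omega
          · simp [mk4, rw4, hij, hij.symm, hik, hik.symm, hil, hil.symm, hjk, hjk.symm, hjl,
              hjl.symm, hkl, hkl.symm]
            omega
          · simp [mk4, rw4, hij, hij.symm, hik, hik.symm, hil, hil.symm, hjk, hjk.symm, hjl,
              hjl.symm, hkl, hkl.symm]
            omega
      · ext x
        rw [mem_bad]
        rcases all_four hij hik hil hjk hjl hkl x with rfl | rfl | rfl | rfl
        · simp only [mem_insert, true_or, iff_true]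
          refine ⟨k, ?_⟩
          simpa [mk4, rw4, hij, hij.symm, hik, hik.symm, hil, hil.symm, hjk, hjk.symm, hjl,
              hjl.symm, hkl, hkl.symm] using ha2
        · simp only [mem_insert, mem_singleton, or_true, iff_true]
          refine ⟨k, ?_⟩
          simpa [mk4, rw4, hij, hij.symm, hik, hik.symm, hil, hil.symm, hjk, hjk.symm, hjl,
              hjl.symm, hkl, hkl.symm] using nCa
        · simp [mk4, hik.symm, hjk.symm, hpu]
        · simp [mk4, hil.symm, hjl.symm, hkl.symm, hpv]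
      · simp [mk4, hik.symm, hjk.symm]
      · simp [mk4, hil.symm, hjl.symm, hkl.symm]
    · intro E hE
      simp only [mem_filter] at hE
      obtain ⟨⟨hE1, hb⟩, hk, hl⟩ := hE
      obtain ⟨d1, d2, d3, d4, r1, r2, r3, r4, c1, c2, c3, c4, -, -, hik'⟩ := facts E hE1 hb hk hl
      funext x
      rcases all_four hij hik hil hjk hjl hkl x with rfl | rfl | rfl | rfl
      · funext y
        rcases all_four hij hik hil hjk hjl hkl y with rfl | rfl | rfl | rfl <;>
          simp [mk4, rw4, hij, hij.symm, hik, hik.symm, hil, hil.symm, hjk, hjk.symm, hjl,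
              hjl.symm, hkl, hkl.symm] <;> omega
      · funext y
        rcases all_four hij hik hil hjk hjl hkl y with rfl | rfl | rfl | rfl <;>
          simp [mk4, rw4, hij, hij.symm, hik, hik.symm, hil, hil.symm, hjk, hjk.symm, hjl,
              hjl.symm, hkl, hkl.symm] <;> omega
      · simp [mk4, hik.symm, hjk.symm, hk]
      · simp [mk4, hil.symm, hjl.symm, hkl.symm, hl]
    · intro a ha
      simp [mk4, rw4, hik.symm, hjk.symm]
    · intro E hE
      simp only [mem_filter] at hE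
      obtain ⟨⟨hE1, hb⟩, hk, hl⟩ := hE
      obtain ⟨d1, d2, d3, d4, r1, r2, r3, r4, c1, c2, c3, c4, -, -, hik'⟩ := facts E hE1 hb hk hl
      have v1 := rowT_val (v := E i) (n := n) (R := R1) (a := E i k) hij hik hil hjk hjl hkl d1
        (by omega) rfl (by omega) hR1n (by omega)
      have v2 := rowT_val (v := E j) (n := n) (R := R2) (a := Cc - E i k) hij.symm hjk hjl hik hil hkl
        d2 (by omega) (by omega) (by omega) hR2n (by omega)
      unfold TT
      rw [prod_four hij hik hil hjk hjl hkl, v1, v2, hk, hl]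
      have sg := sign_id (A := cc i k) (cc_sq hil) (cc_sq hjk) (cc_sq hjl)
        (sign_four hij hik hil hjk hjl hkl) (R1 := R1) (R2 := R2) (Cc := Cc) (a := E i k)
        (by omega) (by omega) (by omega)
      rw [hK]
      linear_combination rowT k u * rowT l v * (cc i j ^ (n - R1) * cc j i ^ (n - R2))
        * ((n.choose R1 : ℤ) * (n.choose R2 : ℤ)) * ((R1.choose (E i k) : ℤ) * (R2.choose (Cc - E i k) : ℤ)) * sg
  have key2 : ∑ a ∈ (range (Cc + 1)).filter (fun a => ¬ p ∣ a ∧ a ≤ R1 ∧ Cc - a ≤ R2),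
        K * ((-1) ^ a * (R1.choose a : ℤ) * (R2.choose (Cc - a) : ℤ))
      = K * ∑ a ∈ range (Cc + 1), if p ∣ a then 0 else
        (-1) ^ a * (R1.choose a : ℤ) * (R2.choose (Cc - a) : ℤ) := by
    rw [sum_filter, mul_sum]
    apply sum_congr rfl
    intro a _
    by_cases h : p ∣ a
    · simp [h]
    · by_cases h2 : a ≤ R1
      · by_cases h3 : Cc - a ≤ R2
        · simp [h, h2, h3]
        · rw [Nat.choose_eq_zero_of_lt (n := R2) (k := Cc - a) (by omega)]
          simp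
      · rw [Nat.choose_eq_zero_of_lt (n := R1) (k := a) (by omega)]
        simp
  rw [key, key2]
  obtain ⟨s, hs1, hsr, hsu, hsv, hmul⟩ := exists_s hp.out hr hn
    (u := u) (v := v) (by rw [sum_four hij hik hil hjk hjl hkl]; omega)
    (by rw [sum_four hij hik hil hjk hjl hkl]; omega) hpu hpv
  have dR1 : p ^ s ∣ R1 := by rw [hR1]; exact dvd_add (hsu j) (hsv j)
  have dR2 : p ^ s ∣ R2 := by rw [hR2]; exact dvd_add (hsu i) (hsv i)
  have dCc : p ^ s ∣ Cc := by
    have h1 : p ^ s ∣ Cc + v k := by rw [hCc']; exact (pow_dvd_pow p hsr).trans hn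
    exact (Nat.dvd_add_left (hsv k)).1 h1
  have hL := lemK p hodd hs1 dR1 dR2 dCc
  obtain ⟨z, hz⟩ := hL
  have hdiv : ((p : ℤ) ^ (3 * r)) ∣ K * ((R1 : ℤ) * R2 * (p : ℤ) ^ s) := by
    have a1 : p ^ r ∣ R1 * n.choose R1 := hn.trans (dvd_choose_mul n R1)
    have a2 : p ^ r ∣ R2 * n.choose R2 := hn.trans (dvd_choose_mul n R2)
    have a3 : p ^ (3 * r) ∣ (Nat.multinomial univ u * Nat.multinomial univ v)
        * ((R1 * n.choose R1) * (R2 * n.choose R2)) * p ^ s := by
      have e : p ^ (3 * r) = p ^ (r - s) * (p ^ r * p ^ r) * p ^ s := by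
        rw [← pow_add, ← pow_add, ← pow_add]
        congr 1
        omega
      rw [e]
      exact mul_dvd_mul (mul_dvd_mul hmul (mul_dvd_mul a1 a2)) (dvd_refl _)
    have a4 : ((p : ℤ) ^ (3 * r)) ∣ ((Nat.multinomial univ u : ℤ) * (Nat.multinomial univ v : ℤ))
        * (((R1 : ℤ) * (n.choose R1 : ℤ)) * ((R2 : ℤ) * (n.choose R2 : ℤ))) * (p : ℤ) ^ s := by
      exact_mod_cast a3
    refine a4.trans ⟨(∏ y, cc k y ^ u y) * (∏ y, cc l y ^ v y) * (cc i j ^ (n - R1) * cc j i ^ (n - R2))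
      * (cc i l ^ R1 * cc j k ^ Cc * (cc j l ^ R2 * cc j l ^ Cc)), ?_⟩
    rw [hK]
    unfold rowT
    ring
  have hfin : ((K * ∑ a ∈ range (Cc + 1), if p ∣ a then 0 else
        (-1) ^ a * (R1.choose a : ℤ) * (R2.choose (Cc - a) : ℤ) : ℤ) : ℤ_[p])
      = ((K * ((R1 : ℤ) * R2 * (p : ℤ) ^ s) : ℤ) : ℤ_[p]) * z := by
    push_cast
    rw [hz]
    ring
  rw [hfin]
  apply Dvd.dvd.mul_right
  rw [PadicInt.pow_p_dvd_int_iff]
  exact hdiv

end Pool.Agent.W35.AZ
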