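import Mathlib

open Finset MvPolynomial

namespace Pool.Agent.W35.AZ

/-- a skew conference matrix of order four -/
def cc : Fin 4 → Fin 4 → ℤ := ![![0, 1, 1, 1], ![-1, 0, 1, -1], ![-1, -1, 0, 1], ![-1, 1, -1, 0]]

/-- possible rows -/
def Rows (n : ℕ) (x : Fin 4) : Finset (Fin 4 → ℕ) :=
  (piAntidiag univ n).filter (fun v => v x = 0)

/-- the matrices with zero diagonal and all row and column sums `n` -/
def MM (n : ℕ) : Finset (Fin 4 → Fin 4 → ℕ) :=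
  (Fintype.piFinset (fun x => Rows n x)).filter (fun E => ∀ y, ∑ x, E x y = n)

/-- weight of a row -/
def rowT (x : Fin 4) (v : Fin 4 → ℕ) : ℤ := (∏ y, cc x y ^ v y) * (Nat.multinomial univ v : ℤ)

/-- weight of a matrix -/
def TT (E : Fin 4 → Fin 4 → ℕ) : ℤ := ∏ x, rowT x (E x)

/-- the linear forms -/
noncomputable def LL (x : Fin 4) : MvPolynomial (Fin 4) ℤ := ∑ y, C (cc x y) * X y

/-- exponent vector -/
noncomputable def ex (v : Fin 4 → ℕ) : Fin 4 →₀ ℕ := Finsupp.equivFunOnFinite.symm v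

/-- the coefficient -/
noncomputable def PP (n : ℕ) : ℤ := coeff (ex fun _ => n) (∏ x, LL x ^ n)

theorem mem_Rows {n : ℕ} {x : Fin 4} {v : Fin 4 → ℕ} :
    v ∈ Rows n x ↔ ∑ y, v y = n ∧ v x = 0 := by
  simp [Rows, mem_piAntidiag]

theorem mem_MM {n : ℕ} {E : Fin 4 → Fin 4 → ℕ} :
    E ∈ MM n ↔ (∀ x, ∑ y, E x y = n) ∧ (∀ x, E x x = 0) ∧ (∀ y, ∑ x, E x y = n) := by
  simp only [MM, mem_filter, Fintype.mem_piFinset, mem_Rows]
  constructor
  · rintro ⟨h1, h2⟩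
    exact ⟨fun x => (h1 x).1, fun x => (h1 x).2, h2⟩
  · rintro ⟨h1, h2, h3⟩
    exact ⟨fun x => ⟨h1 x, h2 x⟩, h3⟩

theorem ex_inj {v w : Fin 4 → ℕ} : ex v = ex w ↔ v = w := by
  unfold ex
  exact Finsupp.equivFunOnFinite.symm.injective.eq_iff

theorem prod_X_pow (v : Fin 4 → ℕ) :
    (∏ y, X y ^ v y : MvPolynomial (Fin 4) ℤ) = monomial (ex v) 1 := by
  rw [monomial_eq, Finsupp.prod_fintype _ _ (fun i => pow_zero _)]
  simp [ex]

theorem weighted (n : ℕ) (h : Fin 4 → (Fin 4 → ℕ) → ℤ) :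
    ∑ E ∈ MM n, TT E * ∏ x, h x (E x) = coeff (ex fun _ => n)
      (∏ x, ∑ v ∈ Rows n x, C (rowT x v * h x v) * (∏ y, X y ^ v y : MvPolynomial (Fin 4) ℤ)) := by
  rw [prod_univ_sum, coeff_sum, MM, sum_filter]
  apply sum_congr rfl
  intro E _
  rw [prod_mul_distrib, prod_comm]
  have e1 : ∀ y : Fin 4, ∏ x : Fin 4, (X y : MvPolynomial (Fin 4) ℤ) ^ E x y = X y ^ (∑ x, E x y) := by
    intro y
    rw [prod_pow_eq_pow_sum]
  simp only [e1]
  rw [prod_X_pow (fun y => ∑ x, E x y), ← map_prod, coeff_C_mul, coeff_monomial, prod_mul_distrib]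
  have e2 : (ex (fun y => ∑ x, E x y) = ex fun _ => n) ↔ ∀ y, ∑ x, E x y = n := by
    rw [ex_inj, funext_iff]
  by_cases hE : ∀ y, ∑ x, E x y = n
  · rw [if_pos hE, if_pos (e2.2 hE)]
    simp [TT]
  · rw [if_neg hE, if_neg (fun h => hE (e2.1 h))]
    simp

theorem cc_diag (x : Fin 4) : cc x x = 0 := by
  fin_cases x <;> rfl

theorem row_one (n : ℕ) (x : Fin 4) :
    ∑ v ∈ Rows n x, C (rowT x v) * (∏ y, X y ^ v y : MvPolynomial (Fin 4) ℤ) = LL x ^ n := by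
  unfold LL
  rw [sum_pow_eq_sum_piAntidiag, Rows, sum_filter]
  apply sum_congr rfl
  intro v _
  have e1 : ∏ y, (C (cc x y) * X y : MvPolynomial (Fin 4) ℤ) ^ v y
      = C (∏ y, cc x y ^ v y) * ∏ y, X y ^ v y := by
    simp only [mul_pow]
    rw [prod_mul_distrib, map_prod]
    congr 1
    apply prod_congr rfl
    intro y _
    rw [map_pow]
  rw [e1]
  by_cases h : v x = 0
  · rw [if_pos h, rowT, C_mul]
    have : (C ((Nat.multinomial univ v : ℕ) : ℤ) : MvPolynomial (Fin 4) ℤ)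
      = ((Nat.multinomial univ v : ℕ) : MvPolynomial (Fin 4) ℤ) := by
      rw [← map_natCast (C : ℤ →+* MvPolynomial (Fin 4) ℤ)]
    rw [this]
    ring
  · rw [if_neg h]
    have : ∏ y, cc x y ^ v y = 0 := by
      apply prod_eq_zero (mem_univ x)
      rw [cc_diag, zero_pow h]
    rw [this]
    simp

theorem row_mark (n : ℕ) (x y : Fin 4) :
    ∑ v ∈ Rows (n + 1) x, C (rowT x v * (v y : ℤ)) * (∏ y, X y ^ v y : MvPolynomial (Fin 4) ℤ)
      = C (((n + 1 : ℕ) : ℤ) * cc x y) * X y * LL x ^ n := by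
  have h : X y * pderiv y (∑ v ∈ Rows (n + 1) x, C (rowT x v)
      * (∏ y, X y ^ v y : MvPolynomial (Fin 4) ℤ)) = X y * pderiv y (LL x ^ (n + 1)) := by
    rw [row_one]
  have e1 : pderiv y (LL x ^ (n + 1)) = ((n + 1 : ℕ) : MvPolynomial (Fin 4) ℤ) * LL x ^ n * C (cc x y) := by
    rw [Derivation.leibniz_pow]
    have : pderiv y (LL x) = C (cc x y) := by
      unfold LL
      rw [map_sum]
      rw [sum_eq_single y]
      · rw [pderiv_C_mul, pderiv_X_self]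
        simp
      · intro b _ hb
        rw [pderiv_C_mul, pderiv_X_of_ne hb]
        simp
      · intro hy
        exact absurd (mem_univ y) hy
    rw [this]
    simp
    ring
  rw [e1, map_sum, mul_sum] at h
  have e2 : ∑ v ∈ Rows (n + 1) x, C (rowT x v * (v y : ℤ)) * (∏ y, X y ^ v y : MvPolynomial (Fin 4) ℤ)
      = ∑ v ∈ Rows (n + 1) x, X y * pderiv y (C (rowT x v)
        * (∏ y, X y ^ v y : MvPolynomial (Fin 4) ℤ)) := by
    apply sum_congr rfl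
    intro v _
    rw [prod_X_pow, C_mul_monomial, C_mul_monomial, X_mul_pderiv_monomial, smul_monomial]
    congr 1
    simp [ex]
    ring
  rw [e2, h]
  simp
  ring

theorem PP_eq (n : ℕ) : PP n = ∑ E ∈ MM n, TT E := by
  have h := weighted n (fun _ _ => 1)
  simp only [prod_const_one, mul_one] at h
  rw [h, PP]
  simp only [row_one]

/-- marked sums -/
theorem marked (n : ℕ) (b : Fin 4 → Bool) (y : Fin 4) :
    ∑ E ∈ MM (n + 1), TT E * ∏ x, (bif b x then (E x y : ℤ) else 1) = coeff (ex fun _ => n + 1)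
      (∏ x, bif b x then C (((n + 1 : ℕ) : ℤ) * cc x y) * X y * LL x ^ n else LL x ^ (n + 1)) := by
  refine (weighted (n + 1) (fun x v => bif b x then (v y : ℤ) else 1)).trans ?_
  have e : ∀ x : Fin 4, ∑ v ∈ Rows (n + 1) x, C (rowT x v * (bif b x then (v y : ℤ) else 1))
      * (∏ y, X y ^ v y : MvPolynomial (Fin 4) ℤ)
      = bif b x then C (((n + 1 : ℕ) : ℤ) * cc x y) * X y * LL x ^ n else LL x ^ (n + 1) := by
    intro x
    cases hb : b x
    · simp only [cond_false, mul_one]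
      exact row_one (n + 1) x
    · simp only [cond_true]
      exact row_mark n x y
  rw [prod_congr rfl (fun x _ => e x)]

/-- the quantity attached to a column -/
def qv (N a b c d : ℤ) : ℤ :=
  N * (a * b + a * c + a * d + b * c + b * d + c * d)
    - (a * b * c + a * b * d + a * c * d + b * c * d)

/-- the sum over the columns -/
def QQ (N : ℤ) (E : Fin 4 → Fin 4 → ℕ) : ℤ := ∑ y, qv N (E 0 y) (E 1 y) (E 2 y) (E 3 y)

/-- marked sum -/
def SS (n : ℕ) (b : Fin 4 → Bool) (y : Fin 4) : ℤ :=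
  ∑ E ∈ MM (n + 1), TT E * ∏ x, (bif b x then (E x y : ℤ) else 1)

theorem sum_QQ (n : ℕ) (N : ℤ) : ∑ E ∈ MM (n + 1), TT E * QQ N E
    = ∑ y, (N * (SS n ![true, true, false, false] y + SS n ![true, false, true, false] y
        + SS n ![true, false, false, true] y + SS n ![false, true, true, false] y
        + SS n ![false, true, false, true] y + SS n ![false, false, true, true] y)
      - (SS n ![true, true, true, false] y + SS n ![true, true, false, true] y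
        + SS n ![true, false, true, true] y + SS n ![false, true, true, true] y)) := by
  unfold SS
  simp only [mul_sum, ← sum_add_distrib, ← sum_sub_distrib]
  rw [sum_comm]
  apply sum_congr rfl
  intro E _
  rw [QQ, mul_sum]
  apply sum_congr rfl
  intro y _
  simp [Fin.prod_univ_four, qv]
  ring

theorem kappa_id {A : Type*} [CommRing A] (N M0 M1 M2 M3 y0 y1 y2 y3 L0 L1 L2 L3 : A)
    (h0 : L0 = y1 + y2 + y3) (h1 : L1 = -y0 + y2 - y3) (h2 : L2 = -y0 - y1 + y3)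
    (h3 : L3 = -y0 + y1 - y2) :
    (N * ((N * 0 * y0 * M0) * (N * (-1) * y0 * M1) * (M2 * L2) * (M3 * L3)
      + (N * 0 * y0 * M0) * (M1 * L1) * (N * (-1) * y0 * M2) * (M3 * L3)
      + (N * 0 * y0 * M0) * (M1 * L1) * (M2 * L2) * (N * (-1) * y0 * M3)
      + (M0 * L0) * (N * (-1) * y0 * M1) * (N * (-1) * y0 * M2) * (M3 * L3)
      + (M0 * L0) * (N * (-1) * y0 * M1) * (M2 * L2) * (N * (-1) * y0 * M3)
      + (M0 * L0) * (M1 * L1) * (N * (-1) * y0 * M2) * (N * (-1) * y0 * M3))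
      - ((N * 0 * y0 * M0) * (N * (-1) * y0 * M1) * (N * (-1) * y0 * M2) * (M3 * L3)
      + (N * 0 * y0 * M0) * (N * (-1) * y0 * M1) * (M2 * L2) * (N * (-1) * y0 * M3)
      + (N * 0 * y0 * M0) * (M1 * L1) * (N * (-1) * y0 * M2) * (N * (-1) * y0 * M3)
      + (M0 * L0) * (N * (-1) * y0 * M1) * (N * (-1) * y0 * M2) * (N * (-1) * y0 * M3)))
    + (N * ((N * 1 * y1 * M0) * (N * 0 * y1 * M1) * (M2 * L2) * (M3 * L3)
      + (N * 1 * y1 * M0) * (M1 * L1) * (N * (-1) * y1 * M2) * (M3 * L3)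
      + (N * 1 * y1 * M0) * (M1 * L1) * (M2 * L2) * (N * 1 * y1 * M3)
      + (M0 * L0) * (N * 0 * y1 * M1) * (N * (-1) * y1 * M2) * (M3 * L3)
      + (M0 * L0) * (N * 0 * y1 * M1) * (M2 * L2) * (N * 1 * y1 * M3)
      + (M0 * L0) * (M1 * L1) * (N * (-1) * y1 * M2) * (N * 1 * y1 * M3))
      - ((N * 1 * y1 * M0) * (N * 0 * y1 * M1) * (N * (-1) * y1 * M2) * (M3 * L3)
      + (N * 1 * y1 * M0) * (N * 0 * y1 * M1) * (M2 * L2) * (N * 1 * y1 * M3)
      + (N * 1 * y1 * M0) * (M1 * L1) * (N * (-1) * y1 * M2) * (N * 1 * y1 * M3)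
      + (M0 * L0) * (N * 0 * y1 * M1) * (N * (-1) * y1 * M2) * (N * 1 * y1 * M3)))
    + (N * ((N * 1 * y2 * M0) * (N * 1 * y2 * M1) * (M2 * L2) * (M3 * L3)
      + (N * 1 * y2 * M0) * (M1 * L1) * (N * 0 * y2 * M2) * (M3 * L3)
      + (N * 1 * y2 * M0) * (M1 * L1) * (M2 * L2) * (N * (-1) * y2 * M3)
      + (M0 * L0) * (N * 1 * y2 * M1) * (N * 0 * y2 * M2) * (M3 * L3)
      + (M0 * L0) * (N * 1 * y2 * M1) * (M2 * L2) * (N * (-1) * y2 * M3)
      + (M0 * L0) * (M1 * L1) * (N * 0 * y2 * M2) * (N * (-1) * y2 * M3))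
      - ((N * 1 * y2 * M0) * (N * 1 * y2 * M1) * (N * 0 * y2 * M2) * (M3 * L3)
      + (N * 1 * y2 * M0) * (N * 1 * y2 * M1) * (M2 * L2) * (N * (-1) * y2 * M3)
      + (N * 1 * y2 * M0) * (M1 * L1) * (N * 0 * y2 * M2) * (N * (-1) * y2 * M3)
      + (M0 * L0) * (N * 1 * y2 * M1) * (N * 0 * y2 * M2) * (N * (-1) * y2 * M3)))
    + (N * ((N * 1 * y3 * M0) * (N * (-1) * y3 * M1) * (M2 * L2) * (M3 * L3)
      + (N * 1 * y3 * M0) * (M1 * L1) * (N * 1 * y3 * M2) * (M3 * L3)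
      + (N * 1 * y3 * M0) * (M1 * L1) * (M2 * L2) * (N * 0 * y3 * M3)
      + (M0 * L0) * (N * (-1) * y3 * M1) * (N * 1 * y3 * M2) * (M3 * L3)
      + (M0 * L0) * (N * (-1) * y3 * M1) * (M2 * L2) * (N * 0 * y3 * M3)
      + (M0 * L0) * (M1 * L1) * (N * 1 * y3 * M2) * (N * 0 * y3 * M3))
      - ((N * 1 * y3 * M0) * (N * (-1) * y3 * M1) * (N * 1 * y3 * M2) * (M3 * L3)
      + (N * 1 * y3 * M0) * (N * (-1) * y3 * M1) * (M2 * L2) * (N * 0 * y3 * M3)
      + (N * 1 * y3 * M0) * (M1 * L1) * (N * 1 * y3 * M2) * (N * 0 * y3 * M3)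
      + (M0 * L0) * (N * (-1) * y3 * M1) * (N * 1 * y3 * M2) * (N * 0 * y3 * M3)))
    = N ^ 3 * (2 * ((M0 * L0) * (M1 * L1) * (M2 * L2) * (M3 * L3))
      + 6 * ((M0 * M1 * M2 * M3) * (y0 * y1 * y2 * y3))) := by
  subst h0 h1 h2 h3
  ring

theorem LL0 : LL 0 = X 1 + X 2 + X 3 := by
  simp [LL, Fin.sum_univ_four, cc]

theorem LL1 : LL 1 = -X 0 + X 2 - X 3 := by
  simp [LL, Fin.sum_univ_four, cc]
  ring

theorem LL2 : LL 2 = -X 0 - X 1 + X 3 := by
  simp [LL, Fin.sum_univ_four, cc]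
  ring

theorem LL3 : LL 3 = -X 0 + X 1 - X 2 := by
  simp [LL, Fin.sum_univ_four, cc]
  ring

theorem coeff_shift (n : ℕ) (f : MvPolynomial (Fin 4) ℤ) :
    coeff (ex fun _ => n + 1) (f * (X 0 * X 1 * X 2 * X 3)) = coeff (ex fun _ => n) f := by
  have e1 : (X 0 * X 1 * X 2 * X 3 : MvPolynomial (Fin 4) ℤ) = monomial (ex fun _ => 1) 1 := by
    rw [← prod_X_pow]
    simp [Fin.prod_univ_four]
  have e2 : (ex fun _ => n + 1) = (ex fun _ => n) + ex fun _ => 1 := by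
    ext i
    simp [ex]
  rw [e1, e2, coeff_mul_monomial, mul_one]

theorem kappa (n : ℕ) : ∑ E ∈ MM (n + 1), TT E * QQ ((n + 1 : ℕ) : ℤ) E
    = ((n + 1 : ℕ) : ℤ) ^ 3 * (2 * PP (n + 1) + 6 * PP n) := by
  rw [sum_QQ]
  have hS : ∀ b y, SS n b y = coeff (ex fun _ => n + 1)
      (∏ x, bif b x then C (((n + 1 : ℕ) : ℤ) * cc x y) * X y * LL x ^ n else LL x ^ (n + 1)) :=
    fun b y => marked n b y
  simp only [hS, ← coeff_add, ← coeff_sub, ← coeff_C_mul, ← coeff_sum]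
  have hR : ((n + 1 : ℕ) : ℤ) ^ 3 * (2 * PP (n + 1) + 6 * PP n)
      = coeff (ex fun _ => n + 1) (C (((n + 1 : ℕ) : ℤ) ^ 3) * (C 2 * (∏ x, LL x ^ (n + 1))
        + C 6 * ((∏ x, LL x ^ n) * (X 0 * X 1 * X 2 * X 3)))) := by
    rw [coeff_C_mul, coeff_add, coeff_C_mul, coeff_C_mul, coeff_shift]
    rfl
  rw [hR]
  congr 1
  have key := kappa_id (C ((n + 1 : ℕ) : ℤ) : MvPolynomial (Fin 4) ℤ) (LL 0 ^ n) (LL 1 ^ n) (LL 2 ^ n)
    (LL 3 ^ n) (X 0) (X 1) (X 2) (X 3) (LL 0) (LL 1) (LL 2) (LL 3) LL0 LL1 LL2 LL3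
  rw [Fin.sum_univ_four]
  simp only [Fin.prod_univ_four, Matrix.cons_val_zero, Matrix.cons_val_one, Matrix.cons_val,
    cond_true, cond_false, pow_succ, pow_zero, C_mul, cc]
  have c0 : (C 0 : MvPolynomial (Fin 4) ℤ) = 0 := C_0
  have c1 : (C 1 : MvPolynomial (Fin 4) ℤ) = 1 := C_1
  have cm : (C (-1) : MvPolynomial (Fin 4) ℤ) = -1 := by rw [C_neg, C_1]
  have c2 : (C 2 : MvPolynomial (Fin 4) ℤ) = 2 := by
    rw [show (2 : ℤ) = 1 + 1 from rfl, C_add, C_1]; norm_num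
  have c6 : (C 6 : MvPolynomial (Fin 4) ℤ) = 6 := by
    rw [show (6 : ℤ) = 1 + 1 + 1 + 1 + 1 + 1 from rfl]
    simp only [C_add, C_1]; norm_num
  simp only [c0, c1, cm, c2, c6]
  linear_combination key

end Pool.Agent.W35.AZ
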