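import Pool.Agent.W35.AZ.Jac
import Pool.Agent.W35.AZ.Expand

open Finset

namespace Pool.Agent.W35.AZ

theorem dvd_mult (w : Fin 4 → ℕ) (x : Fin 4) : (∑ y, w y) ∣ w x * Nat.multinomial univ w := by
  have h0 : insert x (univ.erase x) = (univ : Finset (Fin 4)) := insert_erase (mem_univ x)
  have h1 := Nat.multinomial_insert (s := univ.erase x) (a := x) (notMem_erase x univ) w
  rw [h0] at h1
  have h2 : w x + ∑ i ∈ univ.erase x, w i = ∑ y, w y := by
    rw [add_sum_erase _ _ (mem_univ x)]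
  rw [h1, h2, ← mul_assoc]
  apply Dvd.dvd.mul_right
  rcases Nat.eq_zero_or_pos (w x) with h3 | h3
  · rw [h3]; simp
  · have h4 : w x ≤ ∑ y, w y := single_le_sum (fun _ _ => Nat.zero_le _) (mem_univ x)
    have h5 := Nat.add_one_mul_choose_eq (∑ y, w y - 1) (w x - 1)
    have e1 : ∑ y, w y - 1 + 1 = ∑ y, w y := by omega
    have e2 : w x - 1 + 1 = w x := by omega
    rw [e1, e2] at h5
    rw [mul_comm, ← h5]
    exact dvd_mul_right _ _

theorem cc_cases (x y : Fin 4) : cc x y = 0 ∨ cc x y = 1 ∨ cc x y = -1 := by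
  fin_cases x <;> fin_cases y <;> simp [cc]

theorem cc_pow {p : ℕ} (hp : Odd p) (x y : Fin 4) : cc x y ^ p = cc x y := by
  rcases cc_cases x y with h | h | h
  · rw [h, zero_pow hp.pos.ne']
  · rw [h, one_pow]
  · rw [h, hp.neg_one_pow]

/-- sign of a matrix -/
def sg (E : Fin 4 → Fin 4 → ℕ) : ℤ := ∏ x, ∏ y, cc x y ^ E x y

theorem TT_row (E : Fin 4 → Fin 4 → ℕ) :
    TT E = sg E * ∏ x, (Nat.multinomial univ (E x) : ℤ) := by
  unfold TT rowT sg
  rw [prod_mul_distrib]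

theorem row_col {n : ℕ} {E : Fin 4 → Fin 4 → ℕ} (h1 : ∀ x, ∑ y, E x y = n)
    (h2 : ∀ y, ∑ x, E x y = n) :
    ∏ x, Nat.multinomial univ (E x) = ∏ y, Nat.multinomial univ (fun x => E x y) := by
  have e1 : ∏ x : Fin 4, ((∏ y, (E x y).factorial) * Nat.multinomial univ (E x)) = n.factorial ^ 4 := by
    have : ∀ x : Fin 4, (∏ y, (E x y).factorial) * Nat.multinomial univ (E x) = n.factorial := by
      intro x
      rw [Nat.multinomial_spec, h1]
    simp [this]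
  have e2 : ∏ y : Fin 4, ((∏ x, (E x y).factorial) * Nat.multinomial univ (fun x => E x y))
      = n.factorial ^ 4 := by
    have : ∀ y : Fin 4, (∏ x, (E x y).factorial) * Nat.multinomial univ (fun x => E x y)
        = n.factorial := by
      intro y
      rw [Nat.multinomial_spec univ (fun x => E x y), h2]
    simp [this]
  rw [prod_mul_distrib] at e1 e2
  rw [prod_comm] at e2
  have h3 : 0 < ∏ x : Fin 4, ∏ y : Fin 4, (E x y).factorial :=
    prod_pos fun x _ => prod_pos fun y _ => Nat.factorial_pos _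
  exact Nat.eq_of_mul_eq_mul_left h3 (e1.trans e2.symm)

theorem TT_col {n : ℕ} {E : Fin 4 → Fin 4 → ℕ} (h1 : ∀ x, ∑ y, E x y = n)
    (h2 : ∀ y, ∑ x, E x y = n) :
    TT E = sg E * ∏ y, (Nat.multinomial univ (fun x => E x y) : ℤ) := by
  rw [TT_row]
  congr 1
  exact_mod_cast row_col h1 h2

theorem mult_four (w : Fin 4 → ℕ) : Nat.multinomial univ w
    = (w 0 + (w 1 + (w 2 + w 3))).choose (w 0) * ((w 1 + (w 2 + w 3)).choose (w 1)
      * (w 2 + w 3).choose (w 2)) := by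
  have h := Nat.multinomial_spec univ w
  rw [Fin.prod_univ_four, Fin.sum_univ_four] at h
  have c1 := Nat.add_choose_mul_factorial_mul_factorial (w 0) (w 1 + (w 2 + w 3))
  have c2 := Nat.add_choose_mul_factorial_mul_factorial (w 1) (w 2 + w 3)
  have c3 := Nat.add_choose_mul_factorial_mul_factorial (w 2) (w 3)
  have hpos : 0 < (w 0).factorial * (w 1).factorial * (w 2).factorial * (w 3).factorial := by
    positivity
  apply Nat.eq_of_mul_eq_mul_left hpos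
  rw [h]
  have e : w 0 + w 1 + w 2 + w 3 = w 0 + (w 1 + (w 2 + w 3)) := by ring
  have s1 : (w 0 + (w 1 + (w 2 + w 3))).choose (w 0)
      = (w 0 + (w 1 + (w 2 + w 3))).choose (w 1 + (w 2 + w 3)) := Nat.choose_symm_add
  have s2 : (w 1 + (w 2 + w 3)).choose (w 1) = (w 1 + (w 2 + w 3)).choose (w 2 + w 3) :=
    Nat.choose_symm_add
  have s3 : (w 2 + w 3).choose (w 2) = (w 2 + w 3).choose (w 3) := Nat.choose_symm_add
  rw [e, s1, s2, s3, ← c1, ← c2, ← c3]
  ring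

/-- the quantities in the ratio -/
def qf (w : Fin 4 → ℕ) : Fin 3 → ℤ := ![(w 0 : ℤ) * (w 1 + (w 2 + w 3)) * (w 0 + (w 1 + (w 2 + w 3))),
  (w 1 : ℤ) * (w 2 + w 3) * (w 1 + (w 2 + w 3)), (w 2 : ℤ) * w 3 * (w 2 + w 3)]

variable (p : ℕ) [hp : Fact p.Prime]

theorem mult_ratio (hodd : p ≠ 2) (w : Fin 4 → ℕ) : ∃ u : Fin 3 → ℤ_[p],
    ((Nat.multinomial univ (fun x => p * w x) : ℕ) : ℤ_[p])
      = (Nat.multinomial univ w : ℕ) * ∏ i, (1 + p ^ 2 * (lamI p + p * u i) * (qf w i : ℤ_[p])) := by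
  obtain ⟨u0, h0⟩ := jac p hodd (w 0) (w 1 + (w 2 + w 3))
  obtain ⟨u1, h1⟩ := jac p hodd (w 1) (w 2 + w 3)
  obtain ⟨u2, h2⟩ := jac p hodd (w 2) (w 3)
  refine ⟨![u0, u1, u2], ?_⟩
  rw [mult_four, mult_four]
  have e1 : p * w 0 + (p * w 1 + (p * w 2 + p * w 3)) = p * (w 0 + (w 1 + (w 2 + w 3))) := by ring
  have e2 : p * w 1 + (p * w 2 + p * w 3) = p * (w 1 + (w 2 + w 3)) := by ring
  have e3 : p * w 2 + p * w 3 = p * (w 2 + w 3) := by ring
  rw [e1, e2, e3]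
  push_cast
  rw [h0, h1, h2, Fin.prod_univ_three]
  simp only [qf, Matrix.cons_val_zero, Matrix.cons_val_one, Matrix.cons_val]
  push_cast
  ring

theorem prod_lem {ι A : Type*} [CommRing A] [DecidableEq ι] (s : Finset ι) (q u t : ι → A)
    (T M P L : A) (h : ∀ i ∈ s, T * q i = M * t i) :
    ∃ z, T * ∏ i ∈ s, (1 + P ^ 2 * (L + P * u i) * q i)
      = T + P ^ 2 * L * (T * ∑ i ∈ s, q i) + P ^ 3 * M * z := by
  induction s using Finset.induction_on with
  | empty => exact ⟨0, by simp⟩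
  | insert j s hj ih =>
    obtain ⟨z, hz⟩ := ih (fun i hi => h i (mem_insert_of_mem hi))
    have hj' := h j (mem_insert_self j s)
    rw [prod_insert hj, sum_insert hj]
    refine ⟨z + u j * t j + P * L * (L + P * u j) * (∑ i ∈ s, q i) * t j
      + P ^ 2 * z * (L + P * u j) * q j, ?_⟩
    linear_combination (1 + P ^ 2 * (L + P * u j) * q j) * hz
      + (P ^ 3 * u j + P ^ 4 * L * (L + P * u j) * ∑ i ∈ s, q i) * hj'

theorem mark_dvd {n : ℕ} {E : Fin 4 → Fin 4 → ℕ} (h1 : ∀ x, ∑ y, E x y = n) (b : Fin 4 → Bool)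
    (y : Fin 4) :
    (∏ x, (bif b x then (n : ℤ) else 1)) ∣ TT E * ∏ x, (bif b x then (E x y : ℤ) else 1) := by
  unfold TT
  rw [← prod_mul_distrib]
  apply prod_dvd_prod_of_dvd
  intro x _
  cases b x
  · simp
  · simp only [cond_true]
    have h := dvd_mult (E x) y
    rw [h1 x] at h
    have h' : (n : ℤ) ∣ (E x y : ℤ) * (Nat.multinomial univ (E x) : ℤ) := by exact_mod_cast h
    unfold rowT
    have e : (∏ z, cc x z ^ E x z) * (Nat.multinomial univ (E x) : ℤ) * (E x y : ℤ)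
        = (∏ z, cc x z ^ E x z) * ((E x y : ℤ) * (Nat.multinomial univ (E x) : ℤ)) := by ring
    rw [e]
    exact Dvd.dvd.mul_left h' _

theorem qf_dvd {n : ℕ} {E : Fin 4 → Fin 4 → ℕ} (h1 : ∀ x, ∑ y, E x y = n)
    (h2 : ∀ y, ∑ x, E x y = n) (y : Fin 4) (i : Fin 3) :
    (n : ℤ) ^ 3 ∣ TT E * qf (fun x => E x y) i := by
  have m01 := mark_dvd h1 ![true, true, false, false] y
  have m02 := mark_dvd h1 ![true, false, true, false] y
  have m03 := mark_dvd h1 ![true, false, false, true] y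
  have m12 := mark_dvd h1 ![false, true, true, false] y
  have m13 := mark_dvd h1 ![false, true, false, true] y
  have m23 := mark_dvd h1 ![false, false, true, true] y
  have m012 := mark_dvd h1 ![true, true, true, false] y
  have m013 := mark_dvd h1 ![true, true, false, true] y
  have m023 := mark_dvd h1 ![true, false, true, true] y
  have m123 := mark_dvd h1 ![false, true, true, true] y
  simp only [Fin.prod_univ_four, Matrix.cons_val_zero, Matrix.cons_val_one, Matrix.cons_val,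
    cond_true, cond_false, mul_one, one_mul] at m01 m02 m03 m12 m13 m23 m012 m013 m023 m123
  have hn : (n : ℤ) = E 0 y + E 1 y + E 2 y + E 3 y := by
    have := h2 y
    rw [Fin.sum_univ_four] at this
    exact_mod_cast this.symm
  obtain ⟨a01, k01⟩ := m01
  obtain ⟨a02, k02⟩ := m02
  obtain ⟨a03, k03⟩ := m03
  obtain ⟨a12, k12⟩ := m12
  obtain ⟨a13, k13⟩ := m13
  obtain ⟨a23, k23⟩ := m23
  obtain ⟨a012, k012⟩ := m012
  obtain ⟨a013, k013⟩ := m013
  obtain ⟨a023, k023⟩ := m023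
  obtain ⟨a123, k123⟩ := m123
  set T := TT E
  set a : ℤ := (E 0 y : ℤ)
  set b : ℤ := (E 1 y : ℤ)
  set c : ℤ := (E 2 y : ℤ)
  set d : ℤ := (E 3 y : ℤ)
  have hi : i = 0 ∨ i = 1 ∨ i = 2 := by
    fin_cases i <;> simp
  rcases hi with rfl | rfl | rfl
  · refine ⟨a01 + a02 + a03, ?_⟩
    simp only [qf, Matrix.cons_val_zero]
    linear_combination (n : ℤ) * (k01 + k02 + k03) - T * a * (b + (c + d)) * hn
  · refine ⟨a12 + a13 - a012 - a013, ?_⟩
    simp only [qf, Matrix.cons_val_one, Matrix.cons_val_zero]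
    linear_combination (n : ℤ) * (k12 + k13) - k012 - k013 - T * b * (c + d) * hn
  · refine ⟨a23 - a023 - a123, ?_⟩
    simp only [qf, Matrix.cons_val]
    linear_combination (n : ℤ) * k23 - k023 - k123 - T * c * d * hn

theorem sum_qf {n : ℕ} {E : Fin 4 → Fin 4 → ℕ} (h2 : ∀ y, ∑ x, E x y = n) :
    ∑ y, ∑ i, qf (fun x => E x y) i = QQ n E := by
  unfold QQ
  apply sum_congr rfl
  intro y _
  have hn : (n : ℤ) = E 0 y + E 1 y + E 2 y + E 3 y := by
    have := h2 y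
    rw [Fin.sum_univ_four] at this
    exact_mod_cast this.symm
  rw [hn, Fin.sum_univ_three]
  simp only [qf, qv, Matrix.cons_val_zero, Matrix.cons_val_one, Matrix.cons_val]
  ring

theorem TT_ratio (hodd : p ≠ 2) {n : ℕ} {E : Fin 4 → Fin 4 → ℕ} (hE : E ∈ MM n) :
    ∃ z : ℤ_[p], (TT (fun x y => p * E x y) : ℤ_[p])
      = TT E + p ^ 2 * lamI p * (TT E * QQ n E) + p ^ 3 * (n : ℤ_[p]) ^ 3 * z := by
  rw [mem_MM] at hE
  obtain ⟨h1, -, h2⟩ := hE
  have h1' : ∀ x, ∑ y, p * E x y = p * n := fun x => by rw [← mul_sum, h1]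
  have h2' : ∀ y, ∑ x, p * E x y = p * n := fun y => by rw [← mul_sum, h2]
  choose u hu using fun y : Fin 4 => mult_ratio p hodd (fun x => E x y)
  have hsg : sg (fun x y => p * E x y) = sg E := by
    unfold sg
    apply prod_congr rfl
    intro x _
    apply prod_congr rfl
    intro y _
    rw [pow_mul, cc_pow (hp.out.odd_of_ne_two hodd)]
  have e1 : (TT (fun x y => p * E x y) : ℤ_[p]) = TT E * ∏ yi ∈ (univ : Finset (Fin 4 × Fin 3)),
      (1 + (p : ℤ_[p]) ^ 2 * (lamI p + p * u yi.1 yi.2) * (qf (fun x => E x yi.1) yi.2 : ℤ_[p])) := by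
    rw [TT_col h1' h2', TT_col h1 h2, hsg, Fintype.prod_prod_type]
    push_cast
    rw [prod_congr rfl (fun y _ => hu y), prod_mul_distrib]
    ring
  have hdv : ∀ yi : Fin 4 × Fin 3, ∃ t : ℤ_[p],
      (TT E : ℤ_[p]) * (qf (fun x => E x yi.1) yi.2 : ℤ_[p]) = (n : ℤ_[p]) ^ 3 * t := by
    intro yi
    obtain ⟨t, ht⟩ := qf_dvd h1 h2 yi.1 yi.2
    refine ⟨t, ?_⟩
    exact_mod_cast congrArg (Int.cast : ℤ → ℤ_[p]) ht
  choose t ht using hdv
  obtain ⟨z, hz⟩ := prod_lem (univ : Finset (Fin 4 × Fin 3))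
    (fun yi => (qf (fun x => E x yi.1) yi.2 : ℤ_[p])) (fun yi => u yi.1 yi.2) t
    (TT E : ℤ_[p]) ((n : ℤ_[p]) ^ 3) (p : ℤ_[p]) (lamI p : ℤ_[p]) (fun i _ => ht i)
  refine ⟨z, ?_⟩
  rw [e1, hz, Fintype.sum_prod_type]
  have e2 : (∑ y : Fin 4, ∑ i : Fin 3, (qf (fun x => E x y) i : ℤ_[p])) = (QQ n E : ℤ_[p]) := by
    rw [← sum_qf h2]
    push_cast
    rfl
  rw [e2]

theorem claim2 (hodd : p ≠ 2) (n : ℕ) (h3 : p = 3 → (3 : ℤ) ∣ PP (n + 1)) :
    (p : ℤ_[p]) ^ 3 * ((n + 1 : ℕ) : ℤ_[p]) ^ 3 ∣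
      ((∑ E ∈ MM (n + 1), TT (fun x y => p * E x y) : ℤ) : ℤ_[p]) - (PP (n + 1) : ℤ_[p]) := by
  have h : ∀ E : Fin 4 → Fin 4 → ℕ, ∃ z : ℤ_[p], E ∈ MM (n + 1) →
      (TT (fun x y => p * E x y) : ℤ_[p])
      = TT E + p ^ 2 * lamI p * (TT E * QQ ((n + 1 : ℕ) : ℤ) E)
        + p ^ 3 * ((n + 1 : ℕ) : ℤ_[p]) ^ 3 * z := by
    intro E
    by_cases hE : E ∈ MM (n + 1)
    · obtain ⟨z, hz⟩ := TT_ratio p hodd hE
      exact ⟨z, fun _ => hz⟩
    · exact ⟨0, fun h => absurd h hE⟩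
  choose z hz using h
  have e1 : ((∑ E ∈ MM (n + 1), TT (fun x y => p * E x y) : ℤ) : ℤ_[p])
      = (PP (n + 1) : ℤ_[p]) + p ^ 2 * lamI p
        * ((∑ E ∈ MM (n + 1), TT E * QQ ((n + 1 : ℕ) : ℤ) E : ℤ) : ℤ_[p])
        + p ^ 3 * ((n + 1 : ℕ) : ℤ_[p]) ^ 3 * ∑ E ∈ MM (n + 1), z E := by
    rw [PP_eq]
    simp only [Int.cast_sum]
    rw [mul_sum, mul_sum, ← sum_add_distrib, ← sum_add_distrib]
    apply sum_congr rfl
    intro E hE
    rw [hz E hE]
    push_cast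
    ring
  rw [kappa] at e1
  have hl : ∃ s : ℤ, lamI p * (2 * PP (n + 1) + 6 * PP n) = p * s := by
    by_cases h : p = 3
    · obtain ⟨c, hc⟩ := h3 h
      refine ⟨-(2 * c + 2 * PP n), ?_⟩
      have : lamI p = -1 := by simp [lamI, h]
      rw [this, hc, h]
      push_cast
      ring
    · refine ⟨0, ?_⟩
      have : lamI p = 0 := by simp [lamI, h]
      rw [this]
      simp
  obtain ⟨s, hs⟩ := hl
  have hs' : (lamI p : ℤ_[p]) * (2 * PP (n + 1) + 6 * PP n) = p * s := by exact_mod_cast congrArg (Int.cast : ℤ → ℤ_[p]) hs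
  refine ⟨s + ∑ E ∈ MM (n + 1), z E, ?_⟩
  rw [e1]
  push_cast
  linear_combination (p : ℤ_[p]) ^ 2 * (n + 1) ^ 3 * hs'

end Pool.Agent.W35.AZ
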