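import Pool.Agent.W35.AZ.Krav

open Finset

namespace Pool.Agent.W35.AZ

variable (p : ℕ) [hp : Fact p.Prime]

/-- `-1` for `p = 3`, otherwise `0` -/
def lamI : ℤ := if p = 3 then -1 else 0

theorem io_congr {x y t : ℕ} (ht : 1 ≤ t) (h : (p : ℤ_[p]) ^ t ∣ (x : ℤ_[p]) - y) :
    (p : ℤ_[p]) ^ t ∣ io p x - io p y := by
  have h1 : (p : ℤ_[p]) ^ 1 ∣ (((x : ℤ) - y : ℤ) : ℤ_[p]) := by
    push_cast
    exact (pow_dvd_pow _ ht).trans h
  rw [PadicInt.pow_p_dvd_int_iff, pow_one] at h1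
  by_cases hx : p ∣ x
  · have hy : p ∣ y := by
      have : (p : ℤ) ∣ (y : ℤ) := (dvd_sub_right (Int.natCast_dvd_natCast.2 hx)).1 h1
      exact Int.natCast_dvd_natCast.1 this
    simp [io_of_dvd p hx, io_of_dvd p hy]
  · have hy : ¬ p ∣ y := by
      intro hy
      apply hx
      have : (p : ℤ) ∣ (x : ℤ) := (dvd_sub_left (Int.natCast_dvd_natCast.2 hy)).1 h1
      exact Int.natCast_dvd_natCast.1 this
    have e : io p x - io p y = (-(io p x * io p y)) * ((x : ℤ_[p]) - y) := by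
      have h1 := io_mul p hx
      have h2 := io_mul p hy
      linear_combination (io p y) * h1 - (io p x) * h2
    rw [e]
    exact Dvd.dvd.mul_left h _

theorem sq_congr {A : Type*} [CommRing A] {q a b : A} (h : q ∣ a - b) : q ∣ a ^ 2 - b ^ 2 := by
  rw [sq_sub_sq]
  exact Dvd.dvd.mul_left h _

theorem two_io_two {i : ℕ} (hodd : p ≠ 2) : 2 * io p (2 * i) = io p i := by
  by_cases h : p ∣ i
  · rw [io_of_dvd p h, io_of_dvd p (h.mul_left 2), mul_zero]
  · have h2 : ¬ p ∣ 2 * i := by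
      intro h'
      rcases (Nat.Prime.dvd_mul hp.out).1 h' with h3 | h3
      · exact hodd ((Nat.prime_dvd_prime_iff_eq hp.out Nat.prime_two).1 h3)
      · exact h h3
    have h3 := io_mul p h
    have h4 := io_mul p h2
    push_cast at h4
    linear_combination (-2 * io p (2 * i)) * h3 + io p i * h4

theorem sum_even_odd {M : Type*} [AddCommMonoid M] (f : ℕ → M) (h : ℕ) :
    ∑ j ∈ range (2 * h + 1), f j = ∑ i ∈ range (h + 1), f (2 * i) + ∑ i ∈ range h, f (2 * i + 1) := by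
  induction h with
  | zero => simp
  | succ h ih =>
    have e : 2 * (h + 1) + 1 = (2 * h + 1) + 1 + 1 := by ring
    rw [e, sum_range_succ, sum_range_succ, ih, sum_range_succ (fun i => f (2 * i)) (h + 1),
      sum_range_succ (fun i => f (2 * i + 1)) h]
    have e2 : 2 * (h + 1) = 2 * h + 1 + 1 := by ring
    rw [e2]
    abel

theorem Ssum_ge_five (h5 : 5 ≤ p) (t : ℕ) (ht : 1 ≤ t) :
    (p : ℤ_[p]) ^ t ∣ ∑ i ∈ range (p ^ t), io p i ^ 2 := by
  have hodd : p ≠ 2 := by omega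
  have hp' : Odd p := hp.out.odd_of_ne_two hodd
  obtain ⟨h, hh⟩ : Odd (p ^ t) := hp'.pow
  have e1 : ∑ j ∈ range (p ^ t), (4 : ℤ_[p]) * io p j ^ 2
      = ∑ i ∈ range (h + 1), io p i ^ 2 + ∑ i ∈ range h, 4 * io p (2 * i + 1) ^ 2 := by
    rw [hh, sum_even_odd]
    congr 1
    apply sum_congr rfl
    intro i _
    rw [← two_io_two p hodd (i := i)]
    ring
  have e2 : ∑ j ∈ range (p ^ t), io p j ^ 2
      = ∑ i ∈ range (h + 1), io p i ^ 2 + ∑ i ∈ range h, io p (h + 1 + i) ^ 2 := by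
    rw [hh]
    have : 2 * h + 1 = (h + 1) + h := by ring
    rw [this, sum_range_add]
  have e3 : (p : ℤ_[p]) ^ t ∣ ∑ i ∈ range h, 4 * io p (2 * i + 1) ^ 2
      - ∑ i ∈ range h, io p (h + 1 + i) ^ 2 := by
    rw [← sum_sub_distrib]
    apply dvd_sum
    intro i _
    rw [← two_io_two p hodd (i := h + 1 + i)]
    have h6 : (p : ℤ_[p]) ^ t ∣ io p (2 * i + 1) - io p (2 * (h + 1 + i)) := by
      apply io_congr p ht
      have : ((p ^ t : ℕ) : ℤ_[p]) = ((2 * h + 1 : ℕ) : ℤ_[p]) := by rw [hh]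
      push_cast at this ⊢
      rw [this]
      exact ⟨-1, by ring⟩
    have h7 := sq_congr h6
    have : 4 * io p (2 * i + 1) ^ 2 - (2 * io p (2 * (h + 1 + i))) ^ 2
        = 4 * (io p (2 * i + 1) ^ 2 - io p (2 * (h + 1 + i)) ^ 2) := by ring
    rw [this]
    exact Dvd.dvd.mul_left h7 _
  have e4 : (p : ℤ_[p]) ^ t ∣ 3 * ∑ i ∈ range (p ^ t), io p i ^ 2 := by
    have : 3 * ∑ i ∈ range (p ^ t), io p i ^ 2
        = ∑ i ∈ range h, 4 * io p (2 * i + 1) ^ 2 - ∑ i ∈ range h, io p (h + 1 + i) ^ 2 := by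
      rw [← mul_sum] at e1
      linear_combination e1 - e2
    rw [this]; exact e3
  have h3 : IsUnit (3 : ℤ_[p]) := by
    have : ¬ p ∣ 3 := by
      intro h
      have := Nat.le_of_dvd (by norm_num) h
      omega
    simpa using isUnit_natCast p this
  exact h3.dvd_mul_left.1 e4

theorem Ssum_three (h3 : p = 3) (t : ℕ) :
    (p : ℤ_[p]) ^ (t + 1) ∣ ∑ i ∈ range (p ^ (t + 1)), io p i ^ 2 + p ^ t := by
  subst h3
  induction t with
  | zero =>
    have h1 := io_mul 3 (i := 1) (by norm_num)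
    have h2 := io_mul 3 (i := 2) (by norm_num)
    have h0 := io_of_dvd 3 (i := 0) (by norm_num)
    push_cast at h1 h2
    rw [mul_one] at h1
    have e : ∑ i ∈ range (3 ^ (0 + 1)), io 3 i ^ 2 = io 3 0 ^ 2 + io 3 1 ^ 2 + io 3 2 ^ 2 := by
      rw [show 3 ^ (0 + 1) = 3 from rfl, sum_range_succ, sum_range_succ, sum_range_succ, sum_range_zero,
        zero_add]
    rw [e, h0, h1]
    have hx : ((3 : ℕ) : ℤ_[3]) = 3 := by norm_num
    rw [hx]
    refine ⟨3 * io 3 2 ^ 2 + 2 - io 3 2 * 4, ?_⟩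
    linear_combination (-2 * io 3 2 * 2 + 4) * h2
  | succ t ih =>
    have hsum : ∑ i ∈ range (3 ^ (t + 1 + 1)), io 3 i ^ 2
        = ∑ i ∈ range (3 ^ (t + 1)), (io 3 i ^ 2 + io 3 (3 ^ (t + 1) + i) ^ 2
          + io 3 (2 * 3 ^ (t + 1) + i) ^ 2) := by
      have e : 3 ^ (t + 1 + 1) = 3 ^ (t + 1) + 3 ^ (t + 1) + 3 ^ (t + 1) := by ring
      rw [e, sum_range_add, sum_range_add, sum_add_distrib, sum_add_distrib]
      congr 1
      apply sum_congr rfl
      intro i _
      congr 2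
      ring
    obtain ⟨c, hc⟩ := ih
    have h2 : ((3 : ℕ) : ℤ_[3]) ^ (t + 1 + 1) ∣ ∑ i ∈ range (3 ^ (t + 1)), (io 3 i ^ 2
        + io 3 (3 ^ (t + 1) + i) ^ 2 + io 3 (2 * 3 ^ (t + 1) + i) ^ 2)
        - 3 * ∑ i ∈ range (3 ^ (t + 1)), io 3 i ^ 2 := by
      rw [mul_sum, ← sum_sub_distrib]
      apply dvd_sum
      intro i _
      by_cases hd : 3 ∣ i
      · have h3 : 3 ∣ 3 ^ (t + 1) + i := (Nat.dvd_add_right (dvd_pow_self 3 (by omega))).2 hd
        have h4 : 3 ∣ 2 * 3 ^ (t + 1) + i :=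
          (Nat.dvd_add_right ((dvd_pow_self 3 (by omega)).mul_left 2)).2 hd
        rw [io_of_dvd 3 hd, io_of_dvd 3 h3, io_of_dvd 3 h4]
        simp
      · have h3 : ¬ 3 ∣ 3 ^ (t + 1) + i := fun h =>
          hd ((Nat.dvd_add_right (dvd_pow_self 3 (by omega))).1 h)
        have h4 : ¬ 3 ∣ 2 * 3 ^ (t + 1) + i := fun h =>
          hd ((Nat.dvd_add_right ((dvd_pow_self 3 (by omega)).mul_left 2)).1 h)
        have k1 := io_mul 3 hd
        have k2 := io_mul 3 h3
        have k3 := io_mul 3 h4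
        have hx : ((3 : ℕ) : ℤ_[3]) = 3 := by norm_num
        push_cast at k1 k2 k3
        rw [hx]
        set x := io 3 i with hxx
        set y := io 3 (3 ^ (t + 1) + i) with hyy
        set z := io 3 (2 * 3 ^ (t + 1) + i) with hzz
        have m1 : y = x - 3 ^ (t + 1) * (x * y) := by
          linear_combination (-y) * k1 + x * k2
        have m2 : z = x - 2 * 3 ^ (t + 1) * (x * z) := by
          linear_combination (-z) * k1 + x * k3
        have n1 : ∃ w, y = x + 3 * w := ⟨-(3 ^ t * (x * y)), by linear_combination m1⟩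
        have n2 : ∃ w, z = x + 3 * w := ⟨-(2 * 3 ^ t * (x * z)), by linear_combination m2⟩
        obtain ⟨w1, hw1⟩ := n1
        obtain ⟨w2, hw2⟩ := n2
        have e5 : x ^ 2 + y ^ 2 + z ^ 2 - 3 * x ^ 2
            = - 3 ^ (t + 1) * x * (y * (x + y) + 2 * z * (x + z)) := by
          linear_combination (x + y) * m1 + (x + z) * m2
        rw [e5, hw1, hw2]
        refine ⟨-x * (2 * x ^ 2 + 3 * w1 * x + 3 * w1 ^ 2 + 2 * w2 * 3 * x + 6 * w2 ^ 2), ?_⟩
        ring
    have e6 : ∑ i ∈ range (3 ^ (t + 1 + 1)), io 3 i ^ 2 + ((3 : ℕ) : ℤ_[3]) ^ (t + 1)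
        = (∑ i ∈ range (3 ^ (t + 1)), (io 3 i ^ 2
        + io 3 (3 ^ (t + 1) + i) ^ 2 + io 3 (2 * 3 ^ (t + 1) + i) ^ 2)
        - 3 * ∑ i ∈ range (3 ^ (t + 1)), io 3 i ^ 2) + ((3 : ℕ) : ℤ_[3]) ^ (t + 1 + 1) * c := by
      rw [hsum]
      have hx : ((3 : ℕ) : ℤ_[3]) = 3 := by norm_num
      rw [hx] at hc ⊢
      linear_combination 3 * hc
    rw [e6]
    exact dvd_add h2 (dvd_mul_right _ _)

theorem Ssum (hodd : p ≠ 2) (t : ℕ) :
    ∃ x : ℤ_[p], ∑ i ∈ range (p ^ (t + 1)), io p i ^ 2 = lamI p * p ^ t + p ^ (t + 1) * x := by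
  by_cases h3 : p = 3
  · obtain ⟨c, hc⟩ := Ssum_three p h3 t
    refine ⟨c, ?_⟩
    have h4 : lamI p = -1 := by simp [lamI, h3]
    rw [h4]
    push_cast
    linear_combination hc
  · have h2 := hp.out.two_le
    have h4 : p ≠ 4 := by
      rintro rfl
      exact absurd hp.out (by norm_num)
    obtain ⟨c, hc⟩ := Ssum_ge_five p (by omega) (t + 1) (by omega)
    refine ⟨c, ?_⟩
    simp only [lamI, h3, if_false]
    rw [hc]
    push_cast
    ring

/-- the ratio factor -/
noncomputable def fac (b l : ℕ) : ℤ_[p] :=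
  if p ∣ l then 1 else ((l : ℤ_[p]) + p * b) * io p l

theorem choose_ratio (b m : ℕ) : ((m + p * b).choose m : ℤ_[p])
    = (m / p + b).choose (m / p) * ∏ l ∈ range (m + 1), fac p b l := by
  have hp0 : 0 < p := hp.out.pos
  induction m with
  | zero => simp [fac]
  | succ m ih =>
    rw [prod_range_succ, ← mul_assoc]
    have hc : ((m + 1 + p * b).choose (m + 1) : ℤ_[p]) * ((m + 1 : ℕ) : ℤ_[p])
        = (m + p * b).choose m * ((m + 1 : ℕ) + p * b) := by
      have h := Nat.add_one_mul_choose_eq (m + p * b) m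
      have e : m + p * b + 1 = m + 1 + p * b := by ring
      rw [e] at h
      have h' : ((m + 1 + p * b : ℕ) : ℤ_[p]) * ((m + p * b).choose m : ℤ_[p])
          = ((m + 1 + p * b).choose (m + 1) : ℤ_[p]) * ((m + 1 : ℕ) : ℤ_[p]) := by
        exact_mod_cast h
      rw [← h']
      push_cast
      ring
    by_cases hd : p ∣ m + 1
    · obtain ⟨k, hk⟩ := hd
      have hk0 : k ≠ 0 := by
        rintro rfl
        simp at hk
      obtain ⟨k', rfl⟩ : ∃ k', k = k' + 1 := ⟨k - 1, by omega⟩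
      have h1 : (m + 1) / p = k' + 1 := by
        rw [hk]; exact Nat.mul_div_cancel_left _ hp0
      have h2 : m / p = k' := by
        rw [Nat.div_eq_iff hp0]
        constructor
        · have : p * (k' + 1) = p * k' + p := by ring
          have : k' * p = p * k' := by ring
          omega
        · have : p * (k' + 1) = p * k' + p := by ring
          have : k' * p = p * k' := by ring
          omega
      have hf : fac p b (m + 1) = 1 := by
        simp [fac, hk]
      rw [hf, h1, mul_one]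
      rw [h2] at ih
      have hc2 : ((k' + 1 + b).choose (k' + 1) : ℤ_[p]) * ((k' + 1 : ℕ) : ℤ_[p])
          = (k' + b).choose k' * ((k' + 1 : ℕ) + b) := by
        have h := Nat.add_one_mul_choose_eq (k' + b) k'
        have e : k' + b + 1 = k' + 1 + b := by ring
        rw [e] at h
        have h' : ((k' + 1 + b : ℕ) : ℤ_[p]) * ((k' + b).choose k' : ℤ_[p])
            = ((k' + 1 + b).choose (k' + 1) : ℤ_[p]) * ((k' + 1 : ℕ) : ℤ_[p]) := by
          exact_mod_cast h
        rw [← h']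
        push_cast
        ring
      have hne : ((p * (k' + 1) : ℕ) : ℤ_[p]) ≠ 0 := by
        rw [Nat.cast_ne_zero]
        exact Nat.mul_ne_zero hp0.ne' (by omega)
      apply mul_right_cancel₀ hne
      rw [← hk, hc, ih]
      generalize ∏ l ∈ range (m + 1), fac p b l = W
      rw [hk]
      push_cast at hc2 ⊢
      linear_combination (-(p : ℤ_[p])) * W * hc2
    · have h2 : (m + 1) / p = m / p := by
        rw [Nat.succ_div_of_not_dvd hd]
      have hf : fac p b (m + 1) = (((m + 1 : ℕ) : ℤ_[p]) + p * b) * io p (m + 1) := by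
        simp only [fac, hd, if_false]
      rw [h2, ← ih, hf]
      have := io_mul p hd
      linear_combination (-((m + 1 + p * b).choose (m + 1) : ℤ_[p])) * this + io p (m + 1) * hc

/-- the ratio -/
noncomputable def rho (a b : ℕ) : ℤ_[p] := ∏ l ∈ range (p * a), fac p b l

theorem choose_rho (a b : ℕ) : ((p * (a + b)).choose (p * a) : ℤ_[p])
    = (a + b).choose a * rho p a b := by
  have h := choose_ratio p b (p * a)
  rw [Nat.mul_div_cancel_left _ hp.out.pos, prod_range_succ] at h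
  have hf : fac p b (p * a) = 1 := by simp [fac]
  rw [hf, mul_one] at h
  rw [mul_add]
  exact h

theorem rho_refl (a b : ℕ) : rho p a b = ∏ l ∈ range (p * a), fac p b (p * a - l) := by
  have h1 : ∏ l ∈ range (p * a), fac p b (p * a - l) = ∏ l ∈ range (p * a), fac p b (l + 1) := by
    rw [← prod_range_reflect]
    apply prod_congr rfl
    intro l hl
    rw [mem_range] at hl
    congr 1
    omega
  have h2 := prod_range_succ (fac p b) (p * a)
  have h3 := prod_range_succ' (fac p b) (p * a)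
  have f0 : fac p b 0 = 1 := by simp [fac]
  have f1 : fac p b (p * a) = 1 := by simp [fac]
  rw [f1, mul_one] at h2
  rw [f0, mul_one] at h3
  rw [h1, ← h3, h2]
  rfl

theorem rho_sq (a b : ℕ) : rho p a b ^ 2 = ∏ l ∈ range (p * a),
    (1 + (p ^ 2 * b * (a + b) : ℤ_[p]) * (io p l * io p (p * a - l))) := by
  rw [sq]
  nth_rewrite 2 [rho_refl]
  unfold rho
  rw [← prod_mul_distrib]
  apply prod_congr rfl
  intro l hl
  rw [mem_range] at hl
  by_cases hd : p ∣ l
  · have h2 : p ∣ p * a - l := (Nat.dvd_sub_iff_right hl.le (dvd_mul_right p a)).2 hd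
    simp [fac, hd, h2, io_of_dvd p hd]
  · have h2 : ¬ p ∣ p * a - l := fun h =>
      hd ((Nat.dvd_sub_iff_right hl.le (dvd_mul_right p a)).1 h)
    simp only [fac, hd, h2, if_false]
    have i1 := io_mul p hd
    have i2 := io_mul p h2
    have e : ((p * a - l : ℕ) : ℤ_[p]) = p * a - l := by
      rw [Nat.cast_sub hl.le]; push_cast; ring
    rw [e] at i2 ⊢
    set x := io p l
    set y := io p (p * a - l)
    have i3 : x * y * ((l : ℤ_[p]) * (p * a - l)) = 1 := by
      linear_combination (y * (p * a - l)) * i1 + i2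
    linear_combination i3

theorem prod_one_add (s : Finset ℕ) (z : ℤ_[p]) (e : ℕ → ℤ_[p]) :
    ∃ w, ∏ l ∈ s, (1 + z * e l) = 1 + z * ∑ l ∈ s, e l + z ^ 2 * w := by
  classical
  induction s using Finset.induction_on with
  | empty => exact ⟨0, by simp⟩
  | insert a s ha ih =>
    obtain ⟨w, hw⟩ := ih
    rw [prod_insert ha, sum_insert ha, hw]
    exact ⟨w + e a * ∑ l ∈ s, e l + z * e a * w, by ring⟩

theorem rho_one (a b : ℕ) : (p : ℤ_[p]) ∣ rho p a b - 1 := by
  unfold rho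
  generalize range (p * a) = s
  classical
  induction s using Finset.induction_on with
  | empty => simp
  | insert l s hl ih =>
    rw [prod_insert hl]
    have h1 : (p : ℤ_[p]) ∣ fac p b l - 1 := by
      unfold fac
      split_ifs with h
      · simp
      · have := io_mul p h
        refine ⟨b * io p l, ?_⟩
        linear_combination this
    have e : fac p b l * ∏ x ∈ s, fac p b x - 1
        = (fac p b l - 1) * ∏ x ∈ s, fac p b x + (∏ x ∈ s, fac p b x - 1) := by ring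
    rw [e]
    exact dvd_add (Dvd.dvd.mul_right h1 _) ih

theorem esum (hodd : p ≠ 2) (t a : ℕ) : ∃ x : ℤ_[p],
    ∑ l ∈ range (p ^ (t + 1) * a), io p l * io p (p ^ (t + 1) * a - l)
      = - (lamI p * a * p ^ t) + p ^ (t + 1) * x := by
  obtain ⟨x0, hx0⟩ := Ssum p hodd t
  have h1 : (p : ℤ_[p]) ^ (t + 1) ∣ ∑ l ∈ range (p ^ (t + 1) * a), io p l * io p (p ^ (t + 1) * a - l)
      - ∑ l ∈ range (p ^ (t + 1) * a), -(io p l ^ 2) := by
    rw [← sum_sub_distrib]
    apply dvd_sum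
    intro l hl
    rw [mem_range] at hl
    have h := io_add p (t := t + 1) (by omega) (x := l) (y := p ^ (t + 1) * a - l)
      (by rw [Nat.add_sub_cancel' hl.le]; exact dvd_mul_right _ _)
    have e : io p l * io p (p ^ (t + 1) * a - l) - -(io p l ^ 2)
        = io p l * (io p l + io p (p ^ (t + 1) * a - l)) := by ring
    rw [e]
    exact Dvd.dvd.mul_left h _
  have h2 : (p : ℤ_[p]) ^ (t + 1) ∣ ∑ l ∈ range (p ^ (t + 1) * a), io p l ^ 2
      - a * ∑ i ∈ range (p ^ (t + 1)), io p i ^ 2 := by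
    rw [sum_range_mul']
    have e : (a : ℤ_[p]) * ∑ i ∈ range (p ^ (t + 1)), io p i ^ 2
        = ∑ _a' ∈ range a, ∑ i ∈ range (p ^ (t + 1)), io p i ^ 2 := by
      rw [sum_const, card_range, nsmul_eq_mul]
    rw [e, ← sum_sub_distrib]
    apply dvd_sum
    intro a' _
    rw [← sum_sub_distrib]
    apply dvd_sum
    intro i _
    apply sq_congr
    apply io_congr p (by omega)
    push_cast
    exact ⟨a', by ring⟩
  obtain ⟨x1, hx1⟩ := h1
  obtain ⟨x2, hx2⟩ := h2
  rw [sum_neg_distrib] at hx1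
  refine ⟨x1 - x2 - a * x0, ?_⟩
  linear_combination hx1 - hx2 - a * hx0

theorem rho_sq' (hodd : p ≠ 2) (t a b : ℕ) (ha : ¬ p ∣ a) (hb : p ^ t ∣ b) :
    ∃ w : ℤ_[p], rho p (p ^ t * a) b ^ 2
      = 1 + p ^ 2 * ((p ^ t * a) * b * (p ^ t * a + b)) * (- lamI p + p * w) := by
  rw [rho_sq]
  obtain ⟨w, hw⟩ := prod_one_add p (range (p * (p ^ t * a)))
    ((p ^ 2 * b * ((p ^ t * a : ℕ) + b) : ℤ_[p]))
    (fun l => io p l * io p (p * (p ^ t * a) - l))
  rw [hw]
  obtain ⟨x, hx⟩ := esum p hodd t a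
  have e0 : p * (p ^ t * a) = p ^ (t + 1) * a := by ring
  rw [e0, hx]
  obtain ⟨b', hb'⟩ := natCast_dvd p hb
  have hi := io_mul p ha
  push_cast
  refine ⟨x * io p a + p * (b' * io p a * (p ^ t * a + b) * w), ?_⟩
  have e1 : (p : ℤ_[p]) ^ 2 * b * (p ^ t * a + b) * ((p : ℤ_[p]) ^ 2 * b * (p ^ t * a + b)) * w
     = p ^ 2 * b * (p ^ t * a + b) * (p ^ (t + 2) * b' * (p ^ t * a + b)) * w := by
    rw [hb']; ring
  linear_combination e1 - (p ^ 2 * b * (p ^ t * a + b) * (p ^ (t + 2) * b' * (p ^ t * a + b)) * w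
    + p ^ 2 * b * (p ^ t * a + b) * (p ^ (t + 1) * x)) * hi

theorem rho_half (hodd : p ≠ 2) (t a b : ℕ) (ha : ¬ p ∣ a) (hb : p ^ t ∣ b) :
    ∃ w : ℤ_[p], rho p (p ^ t * a) b
      = 1 + p ^ 2 * ((p ^ t * a) * b * (p ^ t * a + b)) * (lamI p + p * w) := by
  obtain ⟨w, hw⟩ := rho_sq' p hodd t a b ha hb
  obtain ⟨y, hy⟩ := rho_one p (p ^ t * a) b
  set r := rho p (p ^ t * a) b with hr
  have hu : IsUnit (r + 1) := by
    by_contra h
    rw [PadicInt.not_isUnit_iff, PadicInt.norm_lt_one_iff_dvd] at h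
    have h2 : (p : ℤ_[p]) ∣ 2 := by
      have e : (2 : ℤ_[p]) = (r + 1) - (r - 1) := by ring
      rw [e]
      exact dvd_sub h ⟨y, hy⟩
    have h3 := isUnit_two p hodd
    exact PadicInt.irreducible_p.not_isUnit (isUnit_of_dvd_unit h2 h3)
  obtain ⟨v, hv⟩ := hu.exists_right_inv
  have hl : ∃ q : ℤ_[p], (lamI p : ℤ_[p]) * (v + 1) = p * q := by
    by_cases h3 : p = 3
    · have h2 : (p : ℤ_[p]) ∣ 2 * (v + 1) := by
        refine ⟨1 - y * v, ?_⟩
        have hp3 : (p : ℤ_[p]) = 3 := by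
          have : (p : ℤ_[p]) = ((3 : ℕ) : ℤ_[p]) := by exact_mod_cast congrArg (Nat.cast) h3
          rw [this]; norm_num
        linear_combination hv - v * hy - (1 : ℤ_[p]) * hp3
      obtain ⟨q, hq⟩ := (isUnit_two p hodd).dvd_mul_left.1 h2
      refine ⟨-q, ?_⟩
      have : lamI p = -1 := by simp [lamI, h3]
      rw [this]
      push_cast
      linear_combination (-1 : ℤ_[p]) * hq
    · refine ⟨0, ?_⟩
      have : lamI p = 0 := by simp [lamI, h3]
      rw [this]
      simp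
  obtain ⟨q, hq⟩ := hl
  refine ⟨w * v - q, ?_⟩
  set W : ℤ_[p] := (p ^ t * a) * b * (p ^ t * a + b) with hW
  have hw' : (r + 1) * (r - 1) = p ^ 2 * W * (- lamI p + p * w) := by
    rw [← sub_eq_zero] at hw ⊢
    rw [hW]
    linear_combination hw
  linear_combination v * hw' - (r - 1) * hv - p ^ 2 * W * hq

theorem jac (hodd : p ≠ 2) (a b : ℕ) : ∃ u : ℤ_[p], ((p * (a + b)).choose (p * a) : ℤ_[p])
    = (a + b).choose a * (1 + p ^ 2 * (lamI p + p * u) * (a * b * (a + b))) := by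
  rcases Nat.eq_zero_or_pos a with rfl | ha
  · exact ⟨0, by simp⟩
  rcases Nat.eq_zero_or_pos b with rfl | hb
  · exact ⟨0, by simp⟩
  obtain ⟨i, a', ha', rfl⟩ := Nat.exists_eq_pow_mul_and_not_dvd ha.ne' p hp.out.ne_one
  obtain ⟨j, b', hb', rfl⟩ := Nat.exists_eq_pow_mul_and_not_dvd hb.ne' p hp.out.ne_one
  rcases le_total i j with hij | hij
  · obtain ⟨w, hw⟩ := rho_half p hodd i a' (p ^ j * b') ha' ((pow_dvd_pow p hij).mul_right _)
    refine ⟨w, ?_⟩
    rw [choose_rho, hw]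
    push_cast
    ring
  · obtain ⟨w, hw⟩ := rho_half p hodd j b' (p ^ i * a') hb' ((pow_dvd_pow p hij).mul_right _)
    refine ⟨w, ?_⟩
    have h1 : (p * (p ^ i * a' + p ^ j * b')).choose (p * (p ^ i * a'))
        = (p * (p ^ j * b' + p ^ i * a')).choose (p * (p ^ j * b')) := by
      rw [add_comm (p ^ j * b')]
      apply Nat.choose_symm_of_eq_add
      ring
    have h2 : (p ^ i * a' + p ^ j * b').choose (p ^ i * a')
        = (p ^ j * b' + p ^ i * a').choose (p ^ j * b') := by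
      rw [add_comm (p ^ j * b')]
      apply Nat.choose_symm_of_eq_add
      ring
    rw [h1, h2, choose_rho, hw]
    push_cast
    ring

end Pool.Agent.W35.AZ
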