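import Mathlib

open Finset

namespace Pool.Agent.W35.AZ

variable (p : ℕ) [hp : Fact p.Prime]

theorem isUnit_natCast {i : ℕ} (h : ¬ p ∣ i) : IsUnit ((i : ℕ) : ℤ_[p]) := by
  rw [PadicInt.isUnit_iff, PadicInt.norm_natCast_eq_one_iff]
  exact (Nat.Prime.coprime_iff_not_dvd hp.out).2 h

/-- inverse of `i`, and `0` for multiples of `p` -/
noncomputable def io (i : ℕ) : ℤ_[p] := if p ∣ i then 0 else Ring.inverse (i : ℤ_[p])

theorem io_of_dvd {i : ℕ} (h : p ∣ i) : io p i = 0 := by simp [io, h]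

theorem io_mul {i : ℕ} (h : ¬ p ∣ i) : io p i * i = 1 := by
  simp only [io, h, if_false]
  exact Ring.inverse_mul_cancel _ (isUnit_natCast p h)

theorem isUnit_two (hodd : p ≠ 2) : IsUnit (2 : ℤ_[p]) := by
  have h : ¬ p ∣ 2 := by
    intro h
    exact hodd ((Nat.prime_dvd_prime_iff_eq hp.out Nat.prime_two).1 h)
  have := isUnit_natCast p h
  simpa using this

theorem natCast_dvd {k i : ℕ} (h : p ^ k ∣ i) : (p : ℤ_[p]) ^ k ∣ (i : ℤ_[p]) := by
  obtain ⟨c, rfl⟩ := h
  exact ⟨c, by push_cast; ring⟩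

theorem io_add {x y t : ℕ} (ht : 1 ≤ t) (h : p ^ t ∣ x + y) :
    (p : ℤ_[p]) ^ t ∣ io p x + io p y := by
  have hpx : p ∣ x + y := (dvd_pow_self p (by omega)).trans h
  by_cases hx : p ∣ x
  · have hy : p ∣ y := (Nat.dvd_add_right hx).1 hpx
    simp [io_of_dvd p hx, io_of_dvd p hy]
  · have hy : ¬ p ∣ y := fun hy => hx ((Nat.dvd_add_left hy).1 hpx)
    have e : io p x + io p y = io p x * io p y * ((x + y : ℕ) : ℤ_[p]) := by
      push_cast
      have h1 := io_mul p hx
      have h2 := io_mul p hy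
      linear_combination (-io p y) * h1 + (-io p x) * h2
    rw [e]
    exact Dvd.dvd.mul_left (natCast_dvd p h) _

theorem io_sq_pair {x y t c : ℕ} (hodd : p ≠ 2) (ht : 1 ≤ t) (h : x + y = p ^ t * (2 * c + 1)) :
    (p : ℤ_[p]) ^ t ∣ (-1) ^ x * io p x ^ 2 + (-1) ^ y * io p y ^ 2 := by
  have h1 := io_add p ht (x := x) (y := y) (by rw [h]; exact dvd_mul_right _ _)
  have hp' : Odd p := hp.out.odd_of_ne_two hodd
  have h2 : Odd (x + y) := by
    rw [h]
    exact (hp'.pow).mul ⟨c, rfl⟩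
  have h3 : ((-1 : ℤ_[p])) ^ (x + y) = -1 := h2.neg_one_pow
  have h4 : ((-1 : ℤ_[p])) ^ y = - (-1) ^ x := by
    have h5 : ((-1 : ℤ_[p])) ^ x * (-1) ^ x = 1 := by
      rw [← mul_pow]; simp
    rw [pow_add] at h3
    linear_combination (-1) ^ x * h3 - (-1) ^ y * h5
  have e : (-1 : ℤ_[p]) ^ x * io p x ^ 2 + (-1) ^ y * io p y ^ 2
      = (-1) ^ x * (io p x - io p y) * (io p x + io p y) := by
    rw [h4]; ring
  rw [e]
  exact Dvd.dvd.mul_left h1 _

theorem block (hodd : p ≠ 2) (t b : ℕ) :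
    (p : ℤ_[p]) ^ t ∣ ∑ i ∈ range (p ^ t), (-1) ^ (p ^ t * b + i) * io p (p ^ t * b + i) ^ 2 := by
  rcases Nat.eq_zero_or_pos t with rfl | ht
  · simp
  · obtain ⟨n, hn⟩ : ∃ n, p ^ t = n + 1 := ⟨p ^ t - 1, by
      have := pow_pos hp.out.pos t
      omega⟩
    set f : ℕ → ℤ_[p] := fun x => (-1) ^ x * io p x ^ 2 with hf
    have h0 : f (p ^ t * b + 0) = 0 := by
      simp only [hf]
      rw [io_of_dvd p (by
        rw [add_zero]
        exact ((dvd_pow_self p (by omega)).mul_right b))]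
      simp
    have h1 : ∑ i ∈ range (p ^ t), f (p ^ t * b + i) = ∑ i ∈ range n, f (p ^ t * b + (i + 1)) := by
      rw [hn, sum_range_succ', ← hn, h0, add_zero]
    have h2 : ∑ i ∈ range n, f (p ^ t * b + (i + 1))
        = ∑ i ∈ range n, f (p ^ t * b + (p ^ t - (i + 1))) := by
      rw [← sum_range_reflect]
      apply sum_congr rfl
      intro i hi
      rw [mem_range] at hi
      congr 2
      omega
    have h3 : (p : ℤ_[p]) ^ t ∣ 2 * ∑ i ∈ range (p ^ t), f (p ^ t * b + i) := by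
      rw [two_mul]
      nth_rewrite 2 [h1]
      rw [h1, h2, ← h2]
      nth_rewrite 2 [h2]
      rw [← sum_add_distrib]
      apply dvd_sum
      intro i hi
      rw [mem_range] at hi
      refine io_sq_pair p hodd ht (c := b) ?_
      have : i + 1 ≤ p ^ t := by omega
      have h5 : (i + 1) + (p ^ t - (i + 1)) = p ^ t := by omega
      calc p ^ t * b + (i + 1) + (p ^ t * b + (p ^ t - (i + 1)))
          = 2 * (p ^ t * b) + ((i + 1) + (p ^ t - (i + 1))) := by ring
        _ = p ^ t * (2 * b + 1) := by rw [h5]; ring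
    exact (isUnit_two p hodd).dvd_mul_left.1 h3

theorem sum_range_mul' {M : Type*} [AddCommMonoid M] (f : ℕ → M) (q K : ℕ) :
    ∑ a ∈ range (q * K), f a = ∑ a' ∈ range K, ∑ a0 ∈ range q, f (q * a' + a0) := by
  induction K with
  | zero => simp
  | succ K ih => rw [mul_add, mul_one, sum_range_add, ih, sum_range_succ]

/-- the product of the factors prime to `p` -/
noncomputable def wf (R : ℕ) (a : ℕ) : ℤ_[p] :=
  ∏ l ∈ range a, if p ∣ l + 1 then 1 else ((R : ℤ_[p]) - (l + 1 : ℕ)) * io p (l + 1)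

theorem choose_wf (R : ℕ) (hR : 1 ≤ R) (a : ℕ) :
    ((p * R - 1).choose a : ℤ_[p]) = (R - 1).choose (a / p) * wf p (p * R) a := by
  have hp0 : 0 < p := hp.out.pos
  induction a with
  | zero => simp [wf]
  | succ a ih =>
    have hw : wf p (p * R) (a + 1) = wf p (p * R) a *
      (if p ∣ a + 1 then 1 else (((p * R : ℕ) : ℤ_[p]) - (a + 1 : ℕ)) * io p (a + 1)) := by
      unfold wf
      rw [prod_range_succ]
    have hpR : 1 ≤ p * R := Nat.mul_pos hp0 hR
    have hc : ((p * R - 1).choose (a + 1) : ℤ_[p]) * ((a + 1 : ℕ) : ℤ_[p])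
        = (p * R - 1).choose a * (((p * R : ℕ) : ℤ_[p]) - (a + 1 : ℕ)) := by
      have h := Nat.choose_succ_right_eq (p * R - 1) a
      rcases Nat.lt_or_ge (p * R - 1) a with hlt | hge
      · rw [Nat.choose_eq_zero_of_lt hlt, Nat.choose_eq_zero_of_lt (by omega)]
        simp
      · have h2 : ((p * R - 1 - a : ℕ) : ℤ_[p]) = ((p * R : ℕ) : ℤ_[p]) - (a + 1 : ℕ) := by
          rw [eq_sub_iff_add_eq, ← Nat.cast_add]
          congr 1
          omega
        rw [← h2]
        exact_mod_cast h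
    by_cases hd : p ∣ a + 1
    · obtain ⟨k, hk⟩ := hd
      have hk0 : k ≠ 0 := by
        rintro rfl
        simp at hk
      obtain ⟨k', rfl⟩ : ∃ k', k = k' + 1 := ⟨k - 1, by omega⟩
      have h1 : (a + 1) / p = k' + 1 := by
        rw [hk]; exact Nat.mul_div_cancel_left _ hp0
      have h2 : a / p = k' := by
        rw [Nat.div_eq_iff hp0]
        constructor
        · have : p * (k' + 1) = p * k' + p := by ring
          have : k' * p = p * k' := by ring
          omega
        · have : p * (k' + 1) = p * k' + p := by ring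
          have : k' * p = p * k' := by ring
          omega
      rw [hw, h1]
      simp only [hk, dvd_mul_right, if_true, mul_one]
      rw [h2] at ih
      have hc2 : ((R - 1).choose (k' + 1) : ℤ_[p]) * ((k' + 1 : ℕ) : ℤ_[p])
          = (R - 1).choose k' * ((R : ℤ_[p]) - (k' + 1 : ℕ)) := by
        have h := Nat.choose_succ_right_eq (R - 1) k'
        rcases Nat.lt_or_ge (R - 1) k' with hlt | hge
        · rw [Nat.choose_eq_zero_of_lt hlt, Nat.choose_eq_zero_of_lt (by omega)]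
          simp
        · have h2 : ((R - 1 - k' : ℕ) : ℤ_[p]) = ((R : ℕ) : ℤ_[p]) - (k' + 1 : ℕ) := by
            rw [eq_sub_iff_add_eq, ← Nat.cast_add]
            congr 1
            omega
          rw [← h2]
          exact_mod_cast h
      have hne : ((p * (k' + 1) : ℕ) : ℤ_[p]) ≠ 0 := by
        rw [Nat.cast_ne_zero]
        exact Nat.mul_ne_zero hp0.ne' (by omega)
      apply mul_right_cancel₀ hne
      rw [hk] at hc
      rw [hc, ih]
      push_cast at hc2 ⊢
      linear_combination (-(p : ℤ_[p])) * wf p (p * R) a * hc2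
    · have h2 : (a + 1) / p = a / p := by
        rw [Nat.succ_div_of_not_dvd hd]
      rw [hw, h2]
      simp only [hd, if_false]
      rw [← mul_assoc, ← ih, ← mul_assoc, ← hc]
      have := io_mul p hd
      linear_combination (-((p * R - 1).choose (a + 1) : ℤ_[p])) * this

theorem wf_congr (s R : ℕ) (hR : p ^ s ∣ R) (a : ℕ) :
    (p : ℤ_[p]) ^ s ∣ wf p R a - (-1) ^ (a - a / p) := by
  have hp0 : 0 < p := hp.out.pos
  induction a with
  | zero => simp [wf]
  | succ a ih =>
    have hw : wf p R (a + 1) = wf p R a *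
      (if p ∣ a + 1 then 1 else (((R : ℕ) : ℤ_[p]) - (a + 1 : ℕ)) * io p (a + 1)) := by
      unfold wf
      rw [prod_range_succ]
    rw [hw]
    have hle : a / p ≤ a := Nat.div_le_self a p
    by_cases hd : p ∣ a + 1
    · have h1 : (a + 1) / p = a / p + 1 := Nat.succ_div_of_dvd hd
      rw [h1]
      simp only [hd, if_true, mul_one]
      have : a + 1 - (a / p + 1) = a - a / p := by omega
      rw [this]
      exact ih
    · have h1 : (a + 1) / p = a / p := Nat.succ_div_of_not_dvd hd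
      rw [h1]
      simp only [hd, if_false]
      have h2 : a + 1 - a / p = (a - a / p) + 1 := by omega
      rw [h2, pow_succ]
      have h3 := io_mul p hd
      have e : wf p R a * (((R : ℕ) : ℤ_[p]) - ((a + 1 : ℕ) : ℤ_[p])) * io p (a + 1)
            - (-1) ^ (a - a / p) * -1
          = -(wf p R a - (-1) ^ (a - a / p)) + wf p R a * io p (a + 1) * (R : ℤ_[p]) := by
        linear_combination (-wf p R a) * h3
      rw [← mul_assoc, e]
      exact dvd_add (dvd_neg.2 ih) (Dvd.dvd.mul_left (natCast_dvd p hR) _)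

theorem choose_congr (s R : ℕ) (hR1 : 1 ≤ R) (hR : p ^ s ∣ p * R) (a : ℕ) :
    (p : ℤ_[p]) ^ s ∣ ((p * R - 1).choose a : ℤ_[p])
      - (-1) ^ (a - a / p) * (R - 1).choose (a / p) := by
  rw [choose_wf p R hR1 a]
  have h := wf_congr p s (p * R) hR a
  have e : ((R - 1).choose (a / p) : ℤ_[p]) * wf p (p * R) a
      - (-1) ^ (a - a / p) * (R - 1).choose (a / p)
      = ((R - 1).choose (a / p) : ℤ_[p]) * (wf p (p * R) a - (-1) ^ (a - a / p)) := by ring
  rw [e]
  exact Dvd.dvd.mul_left h _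

theorem dvd_mul_sub_mul {A : Type*} [CommRing A] {q a b a' b' : A} (h1 : q ∣ a - a')
    (h2 : q ∣ b - b') : q ∣ a * b - a' * b' := by
  have e : a * b - a' * b' = (a - a') * b + a' * (b - b') := by ring
  rw [e]
  exact dvd_add (Dvd.dvd.mul_right h1 _) (Dvd.dvd.mul_left h2 _)

theorem VV_congr (hodd : p ≠ 2) (s R1 R2 C : ℕ) (h1 : 1 ≤ R1) (h2 : 1 ≤ R2)
    (d1 : p ^ s ∣ p * R1) (d2 : p ^ s ∣ p * R2) {a' a0 : ℕ} (ha' : a' < C) (ha0 : a0 < p) :
    (p : ℤ_[p]) ^ s ∣ ((p * R1 - 1).choose (p * a' + a0) : ℤ_[p])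
        * ((p * R2 - 1).choose (p * C - 1 - (p * a' + a0)) : ℤ_[p])
      - (R1 - 1).choose a' * (R2 - 1).choose (C - 1 - a') := by
  have hp0 : 0 < p := hp.out.pos
  have hp' : Odd p := hp.out.odd_of_ne_two hodd
  have e1 : (p * a' + a0) / p = a' := by
    rw [Nat.mul_add_div hp0, Nat.div_eq_of_lt ha0, add_zero]
  have h3 : p * a' + a0 + (p * C - 1 - (p * a' + a0)) = p * C - 1 := by
    have : p * (a' + 1) ≤ p * C := Nat.mul_le_mul_left p ha'
    have : p * (a' + 1) = p * a' + p := by ring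
    omega
  have h4 : p * C - 1 - (p * a' + a0) = p * (C - 1 - a') + (p - 1 - a0) := by
    obtain ⟨d, rfl⟩ : ∃ d, C = a' + 1 + d := ⟨C - (a' + 1), by omega⟩
    have e : a' + 1 + d - 1 - a' = d := by omega
    rw [e]
    have : p * (a' + 1 + d) = p * a' + p + p * d := by ring
    omega
  have e2 : (p * C - 1 - (p * a' + a0)) / p = C - 1 - a' := by
    rw [h4, Nat.mul_add_div hp0, Nat.div_eq_of_lt (by omega), add_zero]
  have c1 := choose_congr p s R1 h1 d1 (p * a' + a0)
  have c2 := choose_congr p s R2 h2 d2 (p * C - 1 - (p * a' + a0))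
  rw [e1] at c1
  rw [e2] at c2
  have c3 := dvd_mul_sub_mul c1 c2
  have hsg : ((-1 : ℤ_[p])) ^ (p * a' + a0 - a')
      * (-1) ^ (p * C - 1 - (p * a' + a0) - (C - 1 - a')) = 1 := by
    rw [← pow_add]
    apply Even.neg_one_pow
    obtain ⟨k, hk⟩ := hp'
    obtain ⟨d, rfl⟩ : ∃ d, C = a' + 1 + d := ⟨C - (a' + 1), by omega⟩
    have e : a' + 1 + d - 1 - a' = d := by omega
    rw [e, h4, e]
    have l1 : p * a' = 2 * k * a' + a' := by rw [hk]; ring
    have l2 : p * d = 2 * k * d + d := by rw [hk]; ring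
    have l3 : p * a' + a0 - a' = 2 * k * a' + a0 := by omega
    have l4 : p * d + (p - 1 - a0) - d = 2 * k * d + (p - 1 - a0) := by omega
    rw [l3, l4]
    have l5 : 2 * k * a' + a0 + (2 * k * d + (p - 1 - a0)) = 2 * k * (a' + d) + (a0 + (p - 1 - a0)) := by
      ring
    have l6 : a0 + (p - 1 - a0) = 2 * k := by omega
    rw [l5, l6]
    exact ⟨k * (a' + d) + k, by ring⟩
  have e5 : (-1 : ℤ_[p]) ^ (p * a' + a0 - a') * ((R1 - 1).choose a' : ℤ_[p])
      * ((-1) ^ (p * C - 1 - (p * a' + a0) - (C - 1 - a')) * ((R2 - 1).choose (C - 1 - a') : ℤ_[p]))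
      = (R1 - 1).choose a' * (R2 - 1).choose (C - 1 - a') := by
    linear_combination ((R1 - 1).choose a' : ℤ_[p]) * ((R2 - 1).choose (C - 1 - a') : ℤ_[p]) * hsg
  rw [e5] at c3
  exact c3

theorem lemV (hodd : p ≠ 2) : ∀ (s : ℕ) (φ : ℕ → ℤ_[p]),
    (∀ t ≤ s, ∀ b, (p : ℤ_[p]) ^ t ∣ ∑ i ∈ range (p ^ t), φ (p ^ t * b + i)) →
    ∀ (R1 R2 C : ℕ), 1 ≤ R1 → 1 ≤ R2 → (p : ℤ_[p]) ^ s ∣ ∑ a ∈ range (p ^ s * C),
      φ a * (((p ^ s * R1 - 1).choose a : ℤ_[p])
        * ((p ^ s * R2 - 1).choose (p ^ s * C - 1 - a) : ℤ_[p]))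
  | 0 => by
      intro φ _ R1 R2 C _ _
      simp
  | s + 1 => by
      intro φ hφ R1 R2 C h1 h2
      have hp0 : 0 < p := hp.out.pos
      have hne : (p : ℤ_[p]) ≠ 0 := by
        rw [Nat.cast_ne_zero]; exact hp0.ne'
      have hb1 : ∀ b, (p : ℤ_[p]) ∣ ∑ i ∈ range p, φ (p * b + i) := by
        intro b
        have := hφ 1 (by omega) b
        simpa using this
      choose φ' hφ' using hb1
      have hφ2 : ∀ t ≤ s, ∀ b, (p : ℤ_[p]) ^ t ∣ ∑ i ∈ range (p ^ t), φ' (p ^ t * b + i) := by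
        intro t ht b
        have h3 := hφ (t + 1) (by omega) b
        have h4 : ∑ i ∈ range (p ^ (t + 1)), φ (p ^ (t + 1) * b + i)
            = p * ∑ i ∈ range (p ^ t), φ' (p ^ t * b + i) := by
          rw [pow_succ', sum_range_mul', mul_sum]
          apply sum_congr rfl
          intro i _
          rw [← hφ']
          apply sum_congr rfl
          intro j _
          congr 1
          ring
        rw [h4, pow_succ'] at h3
        exact (mul_dvd_mul_iff_left hne).1 h3
      have ih := lemV hodd s φ' hφ2 R1 R2 C h1 h2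
      have e1 : ∀ X : ℕ, p ^ (s + 1) * X = p * (p ^ s * X) := fun X => by ring
      rw [e1 R1, e1 R2, e1 C, sum_range_mul']
      have h5 : (p : ℤ_[p]) ^ (s + 1) ∣ ∑ a' ∈ range (p ^ s * C), ∑ a0 ∈ range p,
          φ (p * a' + a0) * (((p ^ s * R1 - 1).choose a' : ℤ_[p])
            * ((p ^ s * R2 - 1).choose (p ^ s * C - 1 - a') : ℤ_[p])) := by
        have e2 : ∑ a' ∈ range (p ^ s * C), ∑ a0 ∈ range p,
          φ (p * a' + a0) * (((p ^ s * R1 - 1).choose a' : ℤ_[p])
            * ((p ^ s * R2 - 1).choose (p ^ s * C - 1 - a') : ℤ_[p]))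
            = p * ∑ a ∈ range (p ^ s * C), φ' a * (((p ^ s * R1 - 1).choose a : ℤ_[p])
        * ((p ^ s * R2 - 1).choose (p ^ s * C - 1 - a) : ℤ_[p])) := by
          rw [mul_sum]
          apply sum_congr rfl
          intro a _
          rw [← sum_mul, hφ']
          ring
        rw [e2, pow_succ']
        exact mul_dvd_mul_left _ ih
      rw [← dvd_sub_left h5, ← sum_sub_distrib]
      apply dvd_sum
      intro a' ha'
      rw [mem_range] at ha'
      rw [← sum_sub_distrib]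
      apply dvd_sum
      intro a0 ha0
      rw [mem_range] at ha0
      rw [← mul_sub]
      apply Dvd.dvd.mul_left
      have hpos : ∀ X : ℕ, 1 ≤ X → 1 ≤ p ^ s * X := fun X hX =>
        Nat.mul_pos (pow_pos hp0 s) hX
      exact VV_congr p hodd (s + 1) (p ^ s * R1) (p ^ s * R2) (p ^ s * C) (hpos _ h1) (hpos _ h2)
        ⟨R1, by ring⟩ ⟨R2, by ring⟩ ha' ha0

theorem lemK (hodd : p ≠ 2) {s : ℕ} (hs : 1 ≤ s) {R1 R2 C : ℕ} (h1 : p ^ s ∣ R1) (h2 : p ^ s ∣ R2)
    (h3 : p ^ s ∣ C) : ((R1 : ℤ_[p]) * R2 * p ^ s) ∣ ∑ a ∈ range (C + 1),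
      if p ∣ a then 0 else (-1) ^ a * (R1.choose a : ℤ_[p]) * (R2.choose (C - a) : ℤ_[p]) := by
  have hp0 : 0 < p := hp.out.pos
  have hpC : p ∣ C := (dvd_pow_self p (by omega)).trans h3
  rw [sum_range_succ]
  simp only [hpC, if_true, add_zero]
  rcases Nat.eq_zero_or_pos R1 with rfl | hR1
  · rw [sum_eq_zero]
    · exact dvd_zero _
    · intro a _
      split_ifs with h
      · rfl
      · have : a ≠ 0 := by rintro rfl; exact h (dvd_zero p)
        obtain ⟨a, rfl⟩ := Nat.exists_eq_succ_of_ne_zero this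
        simp
  rcases Nat.eq_zero_or_pos R2 with rfl | hR2
  · rw [sum_eq_zero]
    · exact dvd_zero _
    · intro a ha
      rw [mem_range] at ha
      split_ifs with h
      · rfl
      · obtain ⟨d, hd⟩ : ∃ d, C - a = d + 1 := ⟨C - a - 1, by omega⟩
        rw [hd]; simp
  have key : (p : ℤ_[p]) ^ s ∣ ∑ a ∈ range C, if p ∣ a then 0 else
      (-1) ^ a * io p a * io p (C - a) * ((R1 - 1).choose (a - 1) : ℤ_[p])
        * ((R2 - 1).choose (C - 1 - a) : ℤ_[p]) := by
    obtain ⟨r1, rfl⟩ := h1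
    obtain ⟨r2, rfl⟩ := h2
    obtain ⟨c, rfl⟩ := h3
    have hr1 : 1 ≤ r1 := Nat.pos_of_mul_pos_left hR1
    have hr2 : 1 ≤ r2 := Nat.pos_of_mul_pos_left hR2
    have hV := lemV p hodd s (fun a => (-1) ^ a * io p a ^ 2) (fun t _ b => block p hodd t b)
      r1 r2 c hr1 hr2
    rw [← dvd_sub_left hV, ← sum_sub_distrib]
    apply dvd_sum
    intro a ha
    rw [mem_range] at ha
    by_cases hd : p ∣ a
    · simp [hd, io_of_dvd p hd]
    · simp only [hd, if_false]
      have ha0 : a ≠ 0 := by rintro rfl; exact hd (dvd_zero p)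
      have hA : ((p ^ s * r1 - 1).choose a : ℤ_[p]) * a
          = ((p ^ s * r1 - 1).choose (a - 1) : ℤ_[p]) * (((p ^ s * r1 : ℕ) : ℤ_[p]) - a) := by
        obtain ⟨b, rfl⟩ := Nat.exists_eq_succ_of_ne_zero ha0
        have h := Nat.choose_succ_right_eq (p ^ s * r1 - 1) b
        simp only [Nat.succ_eq_add_one, Nat.add_sub_cancel]
        rcases Nat.lt_or_ge (p ^ s * r1 - 1) b with hlt | hge
        · rw [Nat.choose_eq_zero_of_lt hlt, Nat.choose_eq_zero_of_lt (by omega)]
          simp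
        · have h2 : ((p ^ s * r1 - 1 - b : ℕ) : ℤ_[p]) = ((p ^ s * r1 : ℕ) : ℤ_[p]) - (b + 1 : ℕ) := by
            rw [eq_sub_iff_add_eq, ← Nat.cast_add]
            congr 1
            omega
          rw [← h2]
          exact_mod_cast h
      have hi := io_mul p hd
      have hadd : (p : ℤ_[p]) ^ s ∣ io p a + io p (p ^ s * c - a) := by
        apply io_add p hs
        rw [Nat.add_sub_cancel' ha.le]
        exact dvd_mul_right _ _
      obtain ⟨y, hy⟩ := hadd
      have hy' : io p (p ^ s * c - a) = - io p a + p ^ s * y := by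
        linear_combination hy
      have hA2 : ((p ^ s * r1 - 1).choose (a - 1) : ℤ_[p])
          = - ((p ^ s * r1 - 1).choose a : ℤ_[p]) + p ^ s * (r1 * io p a
            * ((p ^ s * r1 - 1).choose (a - 1) : ℤ_[p])) := by
        push_cast at hA
        linear_combination io p a * hA - (((p ^ s * r1 - 1).choose a : ℤ_[p])
          + ((p ^ s * r1 - 1).choose (a - 1) : ℤ_[p])) * hi
      rw [hy']
      set A' := ((p ^ s * r1 - 1).choose (a - 1) : ℤ_[p]) with hA'
      set A := ((p ^ s * r1 - 1).choose a : ℤ_[p]) with hAdef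
      set B := ((p ^ s * r2 - 1).choose (p ^ s * c - 1 - a) : ℤ_[p]) with hB
      refine ⟨(-1) ^ a * io p a * B * (y * A' - io p a * (r1 * io p a * A')), ?_⟩
      linear_combination (-((-1) ^ a * io p a * io p a * B)) * hA2
  obtain ⟨z, hz⟩ := key
  refine ⟨z, ?_⟩
  rw [mul_assoc, ← hz, mul_sum]
  apply sum_congr rfl
  intro a ha
  rw [mem_range] at ha
  split_ifs with hd
  · simp
  · have ha0 : a ≠ 0 := by rintro rfl; exact hd (dvd_zero p)
    have hd2 : ¬ p ∣ C - a := fun h => hd ((Nat.dvd_sub_iff_right ha.le hpC).1 h)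
    have i1 := io_mul p hd
    have i2 := io_mul p hd2
    have c1 : (R1.choose a : ℤ_[p]) * a = R1 * ((R1 - 1).choose (a - 1) : ℤ_[p]) := by
      have h := Nat.add_one_mul_choose_eq (R1 - 1) (a - 1)
      have e1 : R1 - 1 + 1 = R1 := by omega
      have e2 : a - 1 + 1 = a := by omega
      rw [e1, e2] at h
      exact_mod_cast h.symm
    have c2 : (R2.choose (C - a) : ℤ_[p]) * ((C - a : ℕ) : ℤ_[p])
        = R2 * ((R2 - 1).choose (C - 1 - a) : ℤ_[p]) := by
      have h := Nat.add_one_mul_choose_eq (R2 - 1) (C - a - 1)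
      have e1 : R2 - 1 + 1 = R2 := by omega
      have e2 : C - a - 1 + 1 = C - a := by omega
      have e3 : C - 1 - a = C - a - 1 := by omega
      rw [e1, e2] at h
      rw [e3]
      exact_mod_cast h.symm
    have f1 : (R1.choose a : ℤ_[p]) = R1 * ((R1 - 1).choose (a - 1) : ℤ_[p]) * io p a := by
      rw [← c1]; linear_combination (-(R1.choose a : ℤ_[p])) * i1
    have f2 : (R2.choose (C - a) : ℤ_[p]) = R2 * ((R2 - 1).choose (C - 1 - a) : ℤ_[p])
        * io p (C - a) := by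
      rw [← c2]; linear_combination (-(R2.choose (C - a) : ℤ_[p])) * i2
    rw [f1, f2]
    ring

end Pool.Agent.W35.AZ
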